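import Pool.Agent.Helper62.LCY.N3

/-!
MP_f7e214_ag, local layer, part 4: values at valuations centred at a point, existence of a
place that is not contracted over every base point, base points lie on the divisor of poles.
-/

open Polynomial

namespace LCY

noncomputable section

variable {L : Type} [Field L] [Algebra ℂ L] {N : ℕ}

/-- The valuation `v` has positive value on both coordinates. -/
def Cen (P : Coord L) (v : DVal L) : Prop := 0 < v.v P.x ∧ 0 < v.v P.y

/-- `Q` is obtained from `P` by blowing up finitely many times. -/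
inductive Tow : Coord L → Coord L → Prop
  | refl (P : Coord L) : Tow P P
  | step (P : Coord L) (o : Option ℂ) (Q : Coord L) : Tow (P.st o) Q → Tow P Q

namespace H62

theorem cen_unit {P : Coord L} {v : DVal L} (h : Cen P v) {f : ℂ[X][X]} (hf : cf f (0, 0) ≠ 0) :
    v.v (ev P.x P.y f) = 0 := by
  have hx : v.Pos P.x := Or.inr h.1
  have hy : v.Pos P.y := Or.inr h.2
  obtain ⟨g, hg⟩ : ∃ g : ℂ[X], f.coeff 0 = C (cf f (0, 0)) + X * g := by
    have : X ∣ f.coeff 0 - C (cf f (0, 0)) := by
      rw [X_dvd_iff]; simp [cf]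
    obtain ⟨g, hg⟩ := this
    exact ⟨g, by rw [← hg]; ring⟩
  have h1 : f = C (C (cf f (0, 0))) + (C X * C g + X * f.divX) := by
    conv_lhs => rw [← divX_mul_X_add f, hg]
    rw [C_add, C_mul]
    ring
  have h2 : ev P.x P.y f = algebraMap ℂ L (cf f (0, 0)) +
      (P.x * aeval P.x g + P.y * ev P.x P.y f.divX) := by
    conv_lhs => rw [h1]
    rw [map_add, map_add, map_mul, map_mul, ev_CC, ev_CX, ev_C, ev_X]
  rw [h2]
  refine (v.val_add_pos ?_ ?_ ?_).2
  · intro h0
    rw [map_eq_zero] at h0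
    exact hf h0
  · exact v.map_const _ hf
  · exact v.pos_add (v.pos_mul_int hx (v.int_aeval hx.int g))
      (v.pos_mul_int hy (v.int_ev hx.int hy.int _))

theorem cen_pos {P : Coord L} {v : DVal L} (h : Cen P v) {f : ℂ[X][X]} (hf : cf f (0, 0) = 0) :
    v.Pos (ev P.x P.y f) := by
  have hx : v.Pos P.x := Or.inr h.1
  have hy : v.Pos P.y := Or.inr h.2
  obtain ⟨g, hg⟩ : ∃ g : ℂ[X], f.coeff 0 = X * g := by
    have : X ∣ f.coeff 0 := by
      rw [X_dvd_iff]; exact hf
    exact this
  have h1 : f = C X * C g + X * f.divX := by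
    conv_lhs => rw [← divX_mul_X_add f, hg]
    rw [C_mul]
    ring
  have h2 : ev P.x P.y f = P.x * aeval P.x g + P.y * ev P.x P.y f.divX := by
    conv_lhs => rw [h1]
    rw [map_add, map_mul, map_mul, ev_CX, ev_C, ev_X]
  rw [h2]
  exact v.pos_add (v.pos_mul_int hx (v.int_aeval hx.int g))
      (v.pos_mul_int hy (v.int_ev hx.int hy.int _))

theorem ne_of_cf {f : ℂ[X][X]} (h : cf f (0, 0) ≠ 0) : f ≠ 0 := by
  rintro rfl
  exact h (cf_zero _)

theorem cen_int {P : Coord L} {v : DVal L} (h : Cen P v) {z : L} (hz : z ∈ P.loc) : v.Int z := by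
  obtain ⟨f, g, hg, rfl⟩ := hz
  have hx : v.Pos P.x := Or.inr h.1
  have hy : v.Pos P.y := Or.inr h.2
  rw [div_eq_mul_inv]
  refine v.int_mul (v.int_ev hx.int hy.int f) (Or.inr ?_)
  rw [v.map_inv (P.ne (ne_of_cf hg)), cen_unit h hg, neg_zero]

theorem cen_of_st {P : Coord L} {o : Option ℂ} {v : DVal L} (h : Cen (P.st o) v) : Cen P v := by
  have hx := P.x_ne
  have hy := P.y_ne
  obtain ⟨h1, h2⟩ := h
  cases o with
  | some c =>
    have e1 : P.x = (P.st (some c)).x := (P.st_some_x c).symm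
    have e2 : P.y = (P.st (some c)).x * ((P.st (some c)).y + algebraMap ℂ L c) := by
      rw [P.st_some_x, P.st_some_y]
      field_simp
      ring
    refine ⟨by rw [e1]; exact h1, ?_⟩
    have h3 : v.Pos P.y := by
      rw [e2]
      exact v.pos_mul_int (Or.inr h1) (v.int_add (Or.inr h2.le) (v.int_const c))
    exact h3.resolve_left hy
  | none =>
    have e1 : P.x = (P.st none).x * (P.st none).y := by
      rw [P.st_none_x, P.st_none_y]
      field_simp
    have e2 : P.y = (P.st none).x := P.st_none_x.symm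
    refine ⟨?_, by rw [e2]; exact h1⟩
    rw [e1, v.map_mul _ _ (P.st none).x_ne (P.st none).y_ne]
    omega

theorem cen_of_tow {P Q : Coord L} (h : Tow P Q) {v : DVal L} (hv : Cen Q v) : Cen P v := by
  induction h with
  | refl P => exact hv
  | step P o Q _ ih => exact cen_of_st (ih hv)

theorem oe_CX : OE 1 (C X : ℂ[X][X]) := by
  refine ⟨og_one.2 (by simp [cf]), (1, 0), ?_, rfl⟩
  simp [cf]

theorem oe_X : OE 1 (X : ℂ[X][X]) := by
  refine ⟨og_one.2 (by simp [cf]), (0, 1), ?_, rfl⟩
  simp [cf]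

theorem ord_x (P : Coord L) : P.ord.v P.x = 1 := by
  have := P.ord_ev oe_CX
  rw [ev_CX] at this
  exact_mod_cast this

theorem ord_y (P : Coord L) : P.ord.v P.y = 1 := by
  have := P.ord_ev oe_X
  rw [ev_X] at this
  exact_mod_cast this

theorem cen_ord (P : Coord L) : Cen P P.ord := by
  refine ⟨?_, ?_⟩
  · rw [ord_x]; norm_num
  · rw [ord_y]; norm_num

/-- On a coordinate axis the other coordinate is residually transcendental. -/
theorem resTr_axis (P : Coord L) : ResTr (P.pval (C X) prime_CX).v P.y := by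
  intro R hR
  have h3 : (R.map C : ℂ[X][X]) ≠ 0 := by
    rw [Ne, Polynomial.map_eq_zero_iff C_injective]
    exact hR
  have h4 : aeval P.y R = ev P.x P.y (R.map C) := (ev_mapC _ _ _).symm
  refine ⟨by rw [h4]; exact P.ne h3, ?_⟩
  rw [h4, P.pval_ev _ h3, mult_zero (not_dvd_mapC not_isUnit_X hR)]
  rfl

theorem resTr_ord (P : Coord L) : ResTr P.ord.v (P.y / P.x) := by
  intro R hR
  obtain ⟨h1, h2⟩ := resTr_axis (P.st (some 0)) R hR
  have h3 : (P.st (some 0)).y = P.y / P.x := by
    rw [P.st_some_y, map_zero, sub_zero]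
  rw [h3] at h1 h2
  exact ⟨h1, by rw [P.ord_same (some 0) _ h1, h2]⟩

/-- A bracket on a field with a pair of coordinates does not vanish on the pair. -/
theorem br_ne (ω : Bracket L) (P : Coord L) : ω.br P.x P.y ≠ 0 := by
  intro h0
  have h1 : ∀ f : ℂ[X][X], ω.br P.x (ev P.x P.y f) = 0 := by
    intro f
    rw [ev_eq_sum]
    have hs : ∀ (s : Finset (ℕ × ℕ)) (F : ℕ × ℕ → L), (∀ e ∈ s, ω.br P.x (F e) = 0) →
        ω.br P.x (∑ e ∈ s, F e) = 0 := by
      intro s F hF
      classical
      induction s using Finset.induction_on with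
      | empty => rw [Finset.sum_empty, ω.zero_right]
      | insert a s ha ih =>
        rw [Finset.sum_insert ha, ω.add_right, hF a (Finset.mem_insert_self a s),
          ih fun i hi => hF i (Finset.mem_insert_of_mem hi), add_zero]
    refine hs _ _ fun e _ => ?_
    rw [ω.mul_right, ω.mul_right, ω.const_right, ω.skew, ω.skew P.x (P.x ^ e.1), ω.pow_left,
      ω.pow_left, ω.alt, ω.skew P.y P.x, h0]
    ring
  have h2 : ∀ f : ℂ[X][X], ω.br P.y (ev P.x P.y f) = 0 := by
    intro f
    rw [ev_eq_sum]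
    have hs : ∀ (s : Finset (ℕ × ℕ)) (F : ℕ × ℕ → L), (∀ e ∈ s, ω.br P.y (F e) = 0) →
        ω.br P.y (∑ e ∈ s, F e) = 0 := by
      intro s F hF
      classical
      induction s using Finset.induction_on with
      | empty => rw [Finset.sum_empty, ω.zero_right]
      | insert a s ha ih =>
        rw [Finset.sum_insert ha, ω.add_right, hF a (Finset.mem_insert_self a s),
          ih fun i hi => hF i (Finset.mem_insert_of_mem hi), add_zero]
    refine hs _ _ fun e _ => ?_
    rw [ω.mul_right, ω.mul_right, ω.const_right, ω.skew, ω.skew P.y (P.x ^ e.1), ω.pow_left,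
      ω.pow_left, ω.alt, h0]
    ring
  have h3 : ∀ z, ω.br P.x z = 0 := by
    intro z
    obtain ⟨f, g, hg, rfl⟩ := P.surj z
    rw [div_eq_mul_inv, ω.mul_right, ω.inv_right (P.ne hg), h1, h1]
    ring
  have h4 : ∀ z, ω.br P.y z = 0 := by
    intro z
    obtain ⟨f, g, hg, rfl⟩ := P.surj z
    rw [div_eq_mul_inv, ω.mul_right, ω.inv_right (P.ne hg), h2, h2]
    ring
  have h5 : ∀ z (f : ℂ[X][X]), ω.br z (ev P.x P.y f) = 0 := by
    intro z f
    rw [ev_eq_sum]
    have hs : ∀ (s : Finset (ℕ × ℕ)) (F : ℕ × ℕ → L), (∀ e ∈ s, ω.br z (F e) = 0) →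
        ω.br z (∑ e ∈ s, F e) = 0 := by
      intro s F hF
      classical
      induction s using Finset.induction_on with
      | empty => rw [Finset.sum_empty, ω.zero_right]
      | insert a s ha ih =>
        rw [Finset.sum_insert ha, ω.add_right, hF a (Finset.mem_insert_self a s),
          ih fun i hi => hF i (Finset.mem_insert_of_mem hi), add_zero]
    refine hs _ _ fun e _ => ?_
    rw [ω.mul_right, ω.mul_right, ω.const_right, ω.skew, ω.skew z (P.x ^ e.1), ω.pow_left,
      ω.pow_left, h3, h4]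
    ring
  obtain ⟨a, b, hab⟩ := ω.ne_zero
  apply hab
  obtain ⟨f, g, hg, rfl⟩ := P.surj b
  rw [div_eq_mul_inv, ω.mul_right, ω.inv_right (P.ne hg), h5, h5]
  ring

/-- The value of the 2-form at the exceptional curve of the blow-up of a point. -/
theorem wt_ord (ω : Bracket L) (P : Coord L) :
    ω.Wt P.ord (1 - P.ord.v (ω.br P.x P.y)) := by
  have hx := P.x_ne
  have hb := br_ne ω P
  refine ⟨P.y / P.x, P.x, resTr_ord P, hx, ord_x P, ?_, ?_⟩
  · rw [ω.skew, ω.br_div hx]
    exact neg_ne_zero.2 (mul_ne_zero (inv_ne_zero hx) hb)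
  · rw [ω.skew, ω.br_div hx, P.ord.map_neg (mul_ne_zero (inv_ne_zero hx) hb),
      P.ord.map_mul _ _ (inv_ne_zero hx) hb, P.ord.map_inv hx, ord_x]
    ring

/-- The bracket of the new coordinates. -/
theorem br_st (ω : Bracket L) (P : Coord L) (o : Option ℂ) :
    ω.br (P.st o).x (P.st o).y = (P.st o).x⁻¹ * ω.br P.x P.y ∨
    ω.br (P.st o).x (P.st o).y = - ((P.st o).x⁻¹ * ω.br P.x P.y) := by
  cases o with
  | some c =>
    left
    rw [P.st_some_x, P.st_some_y, ω.sub_right, ω.const_right, sub_zero, ω.br_div P.x_ne]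
  | none =>
    right
    rw [P.st_none_x, P.st_none_y, ω.br_div P.y_ne, ω.skew]
    ring

/-- Existence of a direction in which a leading form vanishes. -/
theorem exists_dir {m : ℕ} (hm : 1 ≤ m) {f : ℂ[X][X]} (hf : OE m f) :
    ∃ o, cf (bq o m f) (0, 0) = 0 := by
  by_cases h : (lp m f).natDegree = 0
  · refine ⟨none, ?_⟩
    rw [← r0_coeff, r0_bq_none hf.1, lq_coeff, if_pos (Nat.zero_le _)]
    have h1 := lp_coeff m f m
    rw [if_pos le_rfl, coeff_eq_zero_of_natDegree_lt (by omega)] at h1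
    rw [Nat.sub_self] at h1
    rw [Nat.sub_zero]
    exact h1.symm
  · obtain ⟨c, hc⟩ := IsAlgClosed.exists_root (lp m f) (by
      intro h0
      exact h (natDegree_eq_of_degree_eq_some h0))
    refine ⟨some c, ?_⟩
    rw [← r0_coeff, r0_bq_some hf.1, coeff_zero_eq_eval_zero, eval_comp]
    simpa using hc

/-- If the exceptional curve of a point is contracted, the leading forms are proportional. -/
theorem contracted_lead {x : Fin (N + 1) → L} {P : Coord L} {q : L}
    {F : Fin (N + 1) → ℂ[X][X]} (hF : Pol x P q F) {m : ℕ} (hm : ∀ i, OG m (F i))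
    {i : Fin (N + 1)} (hi : OE m (F i)) (hC : Contracted x P.ord) (j : Fin (N + 1)) :
    ∃ c : ℂ, OG (m + 1) (F j - C (C c) * F i) := by
  have hq := hF.1
  have hne : ev P.x P.y (F i) ≠ 0 := P.ne hi.ne
  have hxi : x i ≠ 0 := by
    intro h0
    have := hF.2 i
    rw [h0, mul_zero] at this
    exact hne this
  have hquot : ∀ j, x j / x i = ev P.x P.y (F j) / ev P.x P.y (F i) := by
    intro j
    rw [hF.2 j, hF.2 i, mul_div_mul_left _ _ hq]
  have hint : ∀ j, P.ord.Int (x j / x i) := by
    intro j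
    by_cases h0 : F j = 0
    · left
      rw [hquot, h0, map_zero, zero_div]
    · right
      obtain ⟨n, hn⟩ := exists_OE h0
      rw [hquot, P.ord.map_div (P.ne h0) hne, P.ord_ev hn, P.ord_ev hi]
      have := hn.le (hm j)
      omega
  obtain ⟨c, hc⟩ := hC i hxi hint j
  refine ⟨c, ?_⟩
  by_cases h0 : F j - C (C c) * F i = 0
  · rw [h0]; exact og_zero_pol _
  obtain ⟨n, hn⟩ := exists_OE h0
  have h1 : x j / x i - algebraMap ℂ L c =
      ev P.x P.y (F j - C (C c) * F i) / ev P.x P.y (F i) := by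
    rw [hquot, map_sub, map_mul, ev_CC]
    field_simp
  rw [h1] at hc
  rcases hc with hc | hc
  · rw [div_eq_zero_iff] at hc
    exact absurd (hc.resolve_right hne) (P.ne h0)
  · rw [P.ord.map_div (P.ne h0) hne, P.ord_ev hn, P.ord_ev hi] at hc
    exact hn.1.mono (by omega)

/-- **Over every base point there is an infinitely near base point whose exceptional curve is
not contracted.** -/
theorem exists_noncontracted (x : Fin (N + 1) → L) :
    ∀ (P : Coord L) (F : Fin (N + 1) → ℂ[X][X]), LNorm F → IsB F →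
      ∀ q, Pol x P q F → ∃ Q, Tow P Q ∧ ¬ Contracted x Q.ord := by
  refine base_induction (fun P F => ∀ q, Pol x P q F → ∃ Q, Tow P Q ∧ ¬ Contracted x Q.ord) ?_
  intro P F m hF hm h1 ih q hq
  by_cases hC : Contracted x P.ord
  · obtain ⟨i, hi⟩ := hm.2
    obtain ⟨o, ho⟩ := exists_dir h1 hi
    have hB : IsB (stF o m F) := by
      intro j
      obtain ⟨c, hc⟩ := contracted_lead hq hm.1 hi hC j
      have h2 : F j = (F j - C (C c) * F i) + C (C c) * F i := by ring
      have h3 : OG m (C (C c) * F i) := hi.1.mul_left _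
      have h4 : bq o m (C (C c) * F i) = bq o 0 (C (C c)) * bq o m (F i) := by
        have := bq_mul (og_zero (C (C c))) hi.1 o
        rwa [zero_add] at this
      have h5 : r0 (bq o m (F j)) = r0 (bq o 0 (C (C c))) * r0 (bq o m (F i)) := by
        conv_lhs => rw [h2]
        rw [bq_add (hc.mono (Nat.le_succ m)) h3 o, r0_add, r0_bq_eq_zero hc o, zero_add, h4,
          r0_mul]
      change cf (bq o m (F j)) (0, 0) = 0
      rw [← r0_coeff, h5, mul_coeff_zero, r0_coeff (bq o m (F i)), ho, mul_zero]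
    obtain ⟨Q, hQ, hn⟩ := ih o hB _ (pol_st hq hm.1 o)
    exact ⟨Q, Tow.step P o Q hQ, hn⟩
  · exact ⟨P, Tow.refl P, hC⟩

/-- The value of the bracket of the coordinates does not increase along a tower. -/
theorem br_tow (ω : Bracket L) {P Q : Coord L} (h : Tow P Q) {v : DVal L} (hv : Cen Q v) :
    v.v (ω.br Q.x Q.y) ≤ v.v (ω.br P.x P.y) := by
  induction h with
  | refl P => exact le_rfl
  | step P o Q hQ ih =>
    have h1 := ih hv
    have h2 := cen_of_tow hQ hv
    have hx := (P.st o).x_ne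
    have hb := br_ne ω P
    have h3 : v.v (ω.br (P.st o).x (P.st o).y) = v.v (ω.br P.x P.y) - v.v (P.st o).x := by
      rcases br_st ω P o with h | h
      · rw [h, v.map_mul _ _ (inv_ne_zero hx) hb, v.map_inv hx]; ring
      · rw [h, v.map_neg (mul_ne_zero (inv_ne_zero hx) hb),
          v.map_mul _ _ (inv_ne_zero hx) hb, v.map_inv hx]; ring
    have h4 := h2.1
    omega

/-- **Base points lie on the divisor of poles.** If the 2-form is regular and has no zero at the
origin, the origin is not a base point. -/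
theorem base_on_D (ω : Bracket L) (x : Fin (N + 1) → L)
    (h2 : ∀ (v : DVal L) (k : ℤ), ω.Wt v k → ¬ Contracted x v → k ≤ 0)
    {P : Coord L} {q : L} {F : Fin (N + 1) → ℂ[X][X]} (hF : Pol x P q F) (hL : LNorm F)
    (hB : IsB F) {f g : ℂ[X][X]} (hf : cf f (0, 0) ≠ 0) (hg : cf g (0, 0) ≠ 0) :
    ω.br P.x P.y ≠ ev P.x P.y f / ev P.x P.y g := by
  intro hb
  obtain ⟨Q, hQ, hn⟩ := exists_noncontracted x P F hL hB q hF
  have h3 := h2 _ _ (wt_ord ω Q) hn
  have h4 := br_tow ω hQ (cen_ord Q)
  have h5 := cen_of_tow hQ (cen_ord Q)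
  have h6 : Q.ord.v (ω.br P.x P.y) = 0 := by
    rw [hb, Q.ord.map_div (P.ne (ne_of_cf hf)) (P.ne (ne_of_cf hg)), cen_unit h5 hf,
      cen_unit h5 hg, sub_zero]
  omega

end H62

end

end LCY
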