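import Pool.Agent.Helper62.LCY.B1

/-!
MP_f7e214_ag, bridge, part 2: the order valuation and the points of the blow-up depend only on
the local ring.
-/

open Polynomial

namespace LCY

noncomputable section

variable {L : Type} [Field L] [Algebra ℂ L] {N : ℕ}

namespace H62

/-- Representation of the elements of the local ring. -/
theorem loc_cases {P : Coord L} {z : L} (hz : z ∈ P.loc) :
    (P.ord.Pos z ∧ ∃ f g : ℂ[X][X], cf f (0, 0) = 0 ∧ cf g (0, 0) ≠ 0 ∧
      z = ev P.x P.y f / ev P.x P.y g) ∨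
    (z ≠ 0 ∧ P.ord.v z = 0 ∧ z⁻¹ ∈ P.loc) := by
  obtain ⟨f, g, hg, rfl⟩ := hz
  have hc := cen_ord P
  have hgn := ne_of_cf hg
  by_cases hf : cf f (0, 0) = 0
  · left
    refine ⟨?_, f, g, hf, hg, rfl⟩
    rw [div_eq_mul_inv]
    refine P.ord.pos_mul_int (cen_pos hc hf) (Or.inr ?_)
    rw [P.ord.map_inv (P.ne hgn), cen_unit hc hg, neg_zero]
  · right
    have hfn := ne_of_cf hf
    refine ⟨div_ne_zero (P.ne hfn) (P.ne hgn), ?_, g, f, hf, by rw [inv_div]⟩
    rw [P.ord.map_div (P.ne hfn) (P.ne hgn), cen_unit hc hf, cen_unit hc hg, sub_zero]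

theorem loc_int {P : Coord L} {z : L} (hz : z ∈ P.loc) : P.ord.Int z := cen_int (cen_ord P) hz

theorem loc_inv {P : Coord L} {z : L} (hz : z ∈ P.loc) (h : ¬ P.ord.Pos z) : z⁻¹ ∈ P.loc := by
  rcases loc_cases hz with h1 | h1
  · exact absurd h1.1 h
  · exact h1.2.2

theorem not_inv_of_pos {P : Coord L} {z : L} (h0 : z ≠ 0) (h : P.ord.Pos z) : z⁻¹ ∉ P.loc := by
  intro h1
  have h2 := loc_int h1
  have h3 := h.resolve_left h0
  have h4 := h2.resolve_left (inv_ne_zero h0)
  rw [P.ord.map_inv h0] at h4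
  omega

theorem x_mem (P : Coord L) : P.x ∈ P.loc := by
  have := P.ev_mem_loc (C X)
  rwa [ev_CX] at this

theorem y_mem (P : Coord L) : P.y ∈ P.loc := by
  have := P.ev_mem_loc X
  rwa [ev_X] at this

theorem ev_mem {P : Coord L} {a b : L} (ha : a ∈ P.loc) (hb : b ∈ P.loc) (f : ℂ[X][X]) :
    ev a b f ∈ P.loc := by
  rw [ev_eq_sum]
  refine Subalgebra.sum_mem _ fun e _ => ?_
  exact Subalgebra.mul_mem _ (Subalgebra.mul_mem _ (Subalgebra.algebraMap_mem _ _)
    (Subalgebra.pow_mem _ ha _)) (Subalgebra.pow_mem _ hb _)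

/-- `A` is centred at the point of `B`. -/
theorem loc_le {A B : Coord L} (hx : A.x ∈ B.loc) (hy : A.y ∈ B.loc) (px : 0 < B.ord.v A.x)
    (py : 0 < B.ord.v A.y) : A.loc ≤ B.loc := by
  rintro z ⟨f, g, hg, rfl⟩
  rw [div_eq_mul_inv]
  refine Subalgebra.mul_mem _ (ev_mem hx hy f) (loc_inv (ev_mem hx hy g) ?_)
  have h1 : B.ord.v (ev A.x A.y g) = 0 := cen_unit (P := A) ⟨px, py⟩ hg
  intro h
  have := h.resolve_left (A.ne (ne_of_cf hg))
  omega

theorem loc_eq {A B : Coord L} (hx : A.x ∈ B.loc) (hy : A.y ∈ B.loc) (px : 0 < B.ord.v A.x)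
    (py : 0 < B.ord.v A.y) (hx' : B.x ∈ A.loc) (hy' : B.y ∈ A.loc) (px' : 0 < A.ord.v B.x)
    (py' : 0 < A.ord.v B.y) : A.loc = B.loc :=
  le_antisymm (loc_le hx hy px py) (loc_le hx' hy' px' py')

/-- A valuation centred at the point has at least the value of the order valuation on the
local ring. -/
theorem ord_le_of_cen {P : Coord L} {v : DVal L} (h : Cen P v) {z : L} (hz : z ∈ P.loc)
    (h0 : z ≠ 0) : P.ord.v z ≤ v.v z := by
  obtain ⟨f, g, hg, rfl⟩ := hz
  have hgn := P.ne (ne_of_cf hg)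
  have hfn : f ≠ 0 := by
    rintro rfl
    rw [map_zero, zero_div] at h0
    exact h0 rfl
  rw [P.ord.map_div (P.ne hfn) hgn, v.map_div (P.ne hfn) hgn, cen_unit h hg,
    cen_unit (cen_ord P) hg]
  obtain ⟨m, hm⟩ := exists_OE hfn
  rw [P.ord_ev hm]
  have key : ∀ (s : Finset (ℕ × ℕ)) (F : ℕ × ℕ → L),
      (∀ e ∈ s, F e = 0 ∨ (m : ℤ) ≤ v.v (F e)) →
      (∑ e ∈ s, F e = 0 ∨ (m : ℤ) ≤ v.v (∑ e ∈ s, F e)) := by
    intro s F
    classical
    induction s using Finset.induction_on with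
    | empty => intro _; left; rw [Finset.sum_empty]
    | insert a s ha ih =>
      intro hF
      have h1 := ih fun e he => hF e (Finset.mem_insert_of_mem he)
      have h2 := hF a (Finset.mem_insert_self a s)
      rw [Finset.sum_insert ha]
      by_cases e1 : F a = 0
      · rw [e1, zero_add]; exact h1
      by_cases e2 : ∑ e ∈ s, F e = 0
      · rw [e2, add_zero]; exact h2
      by_cases e3 : F a + ∑ e ∈ s, F e = 0
      · exact Or.inl e3
      right
      have h3 := v.map_add _ _ e1 e2 e3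
      have h4 := h1.resolve_left e2
      have h5 := h2.resolve_left e1
      exact le_trans (le_min h5 h4) h3
  have h1 := key (bs f) (fun e => algebraMap ℂ L (cf f e) * P.x ^ e.1 * P.y ^ e.2) (by
    intro e he
    right
    have hc := mem_bs.1 he
    have hc' : algebraMap ℂ L (cf f e) ≠ 0 := by
      rw [Ne, map_eq_zero]; exact hc
    have h2 := hm.1 e hc
    rw [v.map_mul _ _ (mul_ne_zero hc' (pow_ne_zero _ P.x_ne)) (pow_ne_zero _ P.y_ne),
      v.map_mul _ _ hc' (pow_ne_zero _ P.x_ne), v.map_const _ hc, v.map_pow P.x_ne,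
      v.map_pow P.y_ne]
    have h3 := h.1
    have h4 := h.2
    have h5 : (e.1 : ℤ) ≤ e.1 * v.v P.x := le_mul_of_one_le_right (by positivity) h3
    have h6 : (e.2 : ℤ) ≤ e.2 * v.v P.y := le_mul_of_one_le_right (by positivity) h4
    have h7 : (m : ℤ) ≤ e.1 + e.2 := by exact_mod_cast h2
    omega)
  rw [← ev_eq_sum] at h1
  rcases h1 with h1 | h1
  · exact absurd h1 (P.ne hfn)
  · omega

/-- Coordinates with the same local ring: each is centred at the other. -/
theorem cen_of_loc_eq {A B : Coord L} (h : A.loc = B.loc) : Cen A B.ord := by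
  have key : ∀ z ∈ A.loc, z ≠ 0 → A.ord.Pos z → 0 < B.ord.v z := by
    intro z hz h0 hp
    by_contra hcon
    have h1 : z⁻¹ ∈ B.loc := by
      refine loc_inv (h ▸ hz) ?_
      intro h2
      exact hcon (h2.resolve_left h0)
    exact not_inv_of_pos h0 hp (h ▸ h1)
  refine ⟨key _ (x_mem A) A.x_ne (Or.inr ?_), key _ (y_mem A) A.y_ne (Or.inr ?_)⟩
  · rw [ord_x]; norm_num
  · rw [ord_y]; norm_num

end H62

open H62

/-- The order valuation depends only on the local ring. -/
theorem ord_same_of_loc {A B : Coord L} (h : A.loc = B.loc) : A.ord.Same B.ord := by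
  have key : ∀ z ∈ A.loc, z ≠ 0 → A.ord.v z = B.ord.v z := by
    intro z hz h0
    apply le_antisymm
    · exact ord_le_of_cen (cen_of_loc_eq h) hz h0
    · exact ord_le_of_cen (cen_of_loc_eq h.symm) (h ▸ hz) h0
  intro a ha
  obtain ⟨⟨f, g⟩, hf, hg, h1⟩ := rep A ha
  have h2 := A.ne hf
  have h3 := A.ne hg
  rw [h1, A.ord.map_div h2 h3, B.ord.map_div h2 h3, key _ (A.ev_mem_loc f) h2,
    key _ (A.ev_mem_loc g) h3]

theorem isOrd_iff {P : Coord L} {v : DVal L} : IsOrd P.loc v ↔ v.Same P.ord := by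
  constructor
  · rintro ⟨Q, hQ, h⟩ a ha
    have h1 := ord_same_of_loc hQ
    obtain ⟨⟨f, g⟩, hf, hg, h2⟩ := rep Q ha
    rw [← h1 a ha, h2, v.map_div (Q.ne hf) (Q.ne hg), Q.ord.map_div (Q.ne hf) (Q.ne hg),
      h f hf, h g hg, Q.ord_ev (oe_ordn hf), Q.ord_ev (oe_ordn hg)]
  · intro h
    exact ⟨P, rfl, fun f hf => by rw [h _ (P.ne hf), P.ord_ev (oe_ordn hf)]⟩

namespace H62

theorem st_loc_mono {P : Coord L} (o : Option ℂ) {z : L} (hz : z ∈ P.loc) :
    z ∈ (P.st o).loc := by
  obtain ⟨f, g, hg, rfl⟩ := hz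
  exact ⟨bl o f, bl o g, by rw [cf_bl_zero]; exact hg, by rw [P.ev_st, P.ev_st]⟩

/-- An element of order at least `m` of the local ring, divided by the `m`-th power of the
exceptional equation. -/
theorem st_div_mem {P : Coord L} (o : Option ℂ) {m : ℕ} {z : L} (hz : z ∈ P.loc)
    (hm : z = 0 ∨ (m : ℤ) ≤ P.ord.v z) : z / (P.st o).x ^ m ∈ (P.st o).loc := by
  by_cases h0 : z = 0
  · rw [h0, zero_div]; exact Subalgebra.zero_mem _
  have hm' := hm.resolve_left h0
  obtain ⟨f, g, hg, rfl⟩ := hz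
  have hgn := ne_of_cf hg
  have hfn : f ≠ 0 := by
    rintro rfl
    rw [map_zero, zero_div] at h0
    exact h0 rfl
  obtain ⟨n, hn⟩ := exists_OE hfn
  rw [P.ord.map_div (P.ne hfn) (P.ne hgn), P.ord_ev hn, cen_unit (cen_ord P) hg] at hm'
  have h1 : OG m f := hn.1.mono (by omega)
  refine ⟨bq o m f, bl o g, by rw [cf_bl_zero]; exact hg, ?_⟩
  rw [← P.ev_st o f, ← P.ev_st o g, bl_eq h1, map_mul, map_pow, ev_CX]
  have h2 : (P.st o).x ^ m ≠ 0 := pow_ne_zero _ (P.st o).x_ne
  have h3 := (P.st o).ne (bl_ne hgn o)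
  field_simp

theorem cen_st_ord (P : Coord L) (o : Option ℂ) : Cen P (P.st o).ord := cen_of_st (cen_ord _)

/-- Elements of order at least `2` divided by the exceptional equation lie in the maximal
ideal. -/
theorem st_div_pos {P : Coord L} (o : Option ℂ) {z : L} (hz : z ∈ P.loc)
    (hm : z = 0 ∨ (2 : ℤ) ≤ P.ord.v z) :
    z / (P.st o).x ∈ (P.st o).loc ∧ (P.st o).ord.Pos (z / (P.st o).x) := by
  have hx := (P.st o).x_ne
  have h1 := st_div_mem o (m := 2) hz (by exact_mod_cast hm)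
  have h2 : z / (P.st o).x = (P.st o).x * (z / (P.st o).x ^ 2) := by
    field_simp
  rw [h2]
  refine ⟨Subalgebra.mul_mem _ (x_mem _) h1, ?_⟩
  refine DVal.pos_mul_int _ (Or.inr ?_) (loc_int h1)
  rw [ord_x]; norm_num

/-- Congruence modulo the square of the maximal ideal. -/
def Cong (P : Coord L) (a b : L) : Prop := a - b = 0 ∨ 2 ≤ P.ord.v (a - b)

theorem exists_lin {P : Coord L} {z : L} (hz : z ∈ P.loc) (h0 : P.ord.Pos z) :
    ∃ a b : ℂ, Cong P z (algebraMap ℂ L a * P.x + algebraMap ℂ L b * P.y) := by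
  rcases loc_cases hz with ⟨-, f, g, hf, hg, rfl⟩ | h1
  · set γ := cf g (0, 0) with hγ
    refine ⟨cf f (1, 0) / γ, cf f (0, 1) / γ, ?_⟩
    have hgn := P.ne (ne_of_cf hg)
    set h : ℂ[X][X] := C (C γ) * f - g * (C (C (cf f (1, 0))) * C X + C (C (cf f (0, 1))) * X)
      with hh
    have hγ' : algebraMap ℂ L γ ≠ 0 := by rw [Ne, map_eq_zero]; exact hg
    have h1 : ev P.x P.y f / ev P.x P.y g - (algebraMap ℂ L (cf f (1, 0) / γ) * P.x +
        algebraMap ℂ L (cf f (0, 1) / γ) * P.y) =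
        ev P.x P.y h / ev P.x P.y (C (C γ) * g) := by
      rw [hh]
      simp only [map_sub, map_mul, map_add, ev_CC, ev_CX, ev_X, map_div₀]
      field_simp
    have h2 : OG 2 h := by
      intro e he
      by_contra hlt
      apply he
      have hcf : ∀ i j, i + j < 2 → cf h (i, j) = 0 := by
        intro i j hij
        have e00 : cf g (0, 0) = γ := rfl
        have hij' : (i = 0 ∧ j = 0) ∨ (i = 1 ∧ j = 0) ∨ (i = 0 ∧ j = 1) := by omega
        rcases hij' with ⟨rfl, rfl⟩ | ⟨rfl, rfl⟩ | ⟨rfl, rfl⟩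
        · rw [hh]
          unfold cf at *
          simp [mul_coeff_zero, hf]
        · have e1 : (g.coeff 0).coeff 0 = γ := rfl
          rw [hh]
          unfold cf at *
          simp [mul_coeff_zero, coeff_mul_X, ← mul_assoc]
          rw [e1]
          ring
        · have e1 : (g.coeff 0).coeff 0 = γ := rfl
          rw [hh]
          unfold cf at *
          simp [← mul_assoc, mul_add, coeff_mul_X]
          rw [e1]
          ring
      have := hcf e.1 e.2 (by omega)
      simpa using this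
    unfold Cong
    rw [h1]
    by_cases h3 : h = 0
    · left; rw [h3, map_zero, zero_div]
    right
    obtain ⟨n, hn⟩ := exists_OE h3
    have h4 : cf (C (C γ) * g) (0, 0) ≠ 0 := by
      rw [cf_CC_mul]; exact mul_ne_zero hg hg
    rw [P.ord.map_div (P.ne h3) (P.ne (ne_of_cf h4)), P.ord_ev hn, cen_unit (cen_ord P) h4]
    have := hn.le h2
    omega
  · exfalso
    have := h0.resolve_left h1.1
    omega

theorem cong_iff {P : Coord L} {a b : L} : Cong P a b ↔ (a - b = 0 ∨ 2 ≤ P.ord.v (a - b)) :=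
  Iff.rfl

theorem cong_loc {A B : Coord L} (h : A.loc = B.loc) {a b : L} (hc : Cong A a b) :
    Cong B a b := by
  rcases hc with h1 | h1
  · exact Or.inl h1
  · by_cases h0 : a - b = 0
    · exact Or.inl h0
    · right
      rw [← ord_same_of_loc h _ h0]
      exact h1

theorem ge_add {v : DVal L} {n : ℤ} {a b : L} (ha : a = 0 ∨ n ≤ v.v a) (hb : b = 0 ∨ n ≤ v.v b) :
    a + b = 0 ∨ n ≤ v.v (a + b) := by
  by_cases e1 : a = 0
  · rw [e1, zero_add]; exact hb
  by_cases e2 : b = 0
  · rw [e2, add_zero]; exact ha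
  by_cases e3 : a + b = 0
  · exact Or.inl e3
  right
  exact le_trans (le_min (ha.resolve_left e1) (hb.resolve_left e2)) (v.map_add _ _ e1 e2 e3)

theorem ge_const_mul {v : DVal L} {n : ℤ} {a : L} (c : ℂ) (ha : a = 0 ∨ n ≤ v.v a) :
    algebraMap ℂ L c * a = 0 ∨ n ≤ v.v (algebraMap ℂ L c * a) := by
  by_cases hc : c = 0
  · left; rw [hc, map_zero, zero_mul]
  by_cases e1 : a = 0
  · left; rw [e1, mul_zero]
  right
  rw [v.map_const_mul hc e1]
  exact ha.resolve_left e1

theorem ge_neg {v : DVal L} {n : ℤ} {a : L} (ha : a = 0 ∨ n ≤ v.v a) :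
    -a = 0 ∨ n ≤ v.v (-a) := by
  by_cases e1 : a = 0
  · left; rw [e1, neg_zero]
  right
  rw [v.map_neg e1]
  exact ha.resolve_left e1

/-- **Main lemma.** Two pairs of coordinates at the same point whose second coordinates are
proportional modulo the square of the maximal ideal have the same first point of the blow-up. -/
theorem st_le {A B : Coord L} (h : A.loc = B.loc) {b : ℂ}
    (hc : Cong B A.y (algebraMap ℂ L b * B.y)) :
    (A.st (some 0)).loc ≤ (B.st (some 0)).loc := by
  set T := B.st (some 0) with hT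
  have hAx := A.x_ne
  have hBx := B.x_ne
  have hTx : T.x = B.x := B.st_some_x 0
  have hTy : T.y = B.y / B.x := by rw [hT, B.st_some_y, map_zero, sub_zero]
  have hcen := cen_of_loc_eq h
  have hsame := ord_same_of_loc h
  have e1 : B.ord.v A.x = 1 := by rw [← hsame _ hAx, ord_x]
  have e2 : B.ord.v A.y = 1 := by rw [← hsame _ A.y_ne, ord_y]
  have hAxm : A.x ∈ B.loc := h ▸ x_mem A
  have hAym : A.y ∈ B.loc := h ▸ y_mem A
  obtain ⟨a, a', ha⟩ := exists_lin hAxm (Or.inr (by rw [e1]; norm_num))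
  -- the coefficient `a` is not zero
  have ha0 : a ≠ 0 := by
    rintro rfl
    rw [map_zero, zero_mul, zero_add] at ha
    have h1 := ge_const_mul (v := B.ord) (n := 2) b ha
    have h2 := ge_const_mul (v := B.ord) (n := 2) a' (ge_neg hc)
    have h3 := ge_add h1 h2
    have h4 : algebraMap ℂ L b * (A.x - algebraMap ℂ L a' * B.y) +
        algebraMap ℂ L a' * -(A.y - algebraMap ℂ L b * B.y) =
        algebraMap ℂ L b * A.x - algebraMap ℂ L a' * A.y := by ring
    rw [h4] at h3
    have ha' : a' ≠ 0 := by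
      rintro rfl
      rw [map_zero, zero_mul] at ha
      unfold Cong at ha
      rw [sub_zero] at ha
      have := ha.resolve_left hAx
      omega
    have h5 := resTr_ord A (C b - C a' * X) (by
      intro h0
      have := congrArg (fun p => p.coeff 1) h0
      simp at this
      exact ha' this)
    have h6 : aeval (A.y / A.x) (C b - C a' * X : ℂ[X]) =
        (algebraMap ℂ L b * A.x - algebraMap ℂ L a' * A.y) / A.x := by
      rw [map_sub, map_mul, aeval_C, aeval_C, aeval_X]
      field_simp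
    rw [h6] at h5
    obtain ⟨h7, h8⟩ := h5
    have h9 : algebraMap ℂ L b * A.x - algebraMap ℂ L a' * A.y ≠ 0 := by
      intro h0
      rw [h0, zero_div] at h7
      exact h7 rfl
    rw [A.ord.map_div h9 hAx, ord_x, hsame _ h9] at h8
    have := h3.resolve_left h9
    omega
  -- `A.x / B.x` is a unit of the local ring of `T`
  have hBym := y_mem T
  have key1 : A.x / B.x ∈ T.loc ∧ ¬ T.ord.Pos (A.x / B.x) := by
    have h1 := st_div_pos (some 0) (z := A.x - (algebraMap ℂ L a * B.x +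
      algebraMap ℂ L a' * B.y)) (Subalgebra.sub_mem _ hAxm (Subalgebra.add_mem _
        (Subalgebra.mul_mem _ (Subalgebra.algebraMap_mem _ _) (x_mem B))
        (Subalgebra.mul_mem _ (Subalgebra.algebraMap_mem _ _) (y_mem B)))) ha
    rw [← hT, hTx] at h1
    have h2 : A.x / B.x = algebraMap ℂ L a + (algebraMap ℂ L a' * T.y +
        (A.x - (algebraMap ℂ L a * B.x + algebraMap ℂ L a' * B.y)) / B.x) := by
      rw [hTy]
      field_simp
      ring
    have hpos : T.ord.Pos (algebraMap ℂ L a' * T.y +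
        (A.x - (algebraMap ℂ L a * B.x + algebraMap ℂ L a' * B.y)) / B.x) := by
      refine T.ord.pos_add ?_ h1.2
      rw [mul_comm]
      refine T.ord.pos_mul_int (Or.inr ?_) (T.ord.int_const _)
      rw [ord_y]; norm_num
    constructor
    · rw [h2]
      exact Subalgebra.add_mem _ (Subalgebra.algebraMap_mem _ _) (Subalgebra.add_mem _
        (Subalgebra.mul_mem _ (Subalgebra.algebraMap_mem _ _) hBym) h1.1)
    · rw [h2]
      have h3 := T.ord.val_add_pos (a := algebraMap ℂ L a) (by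
        rw [Ne, map_eq_zero]; exact ha0) (T.ord.map_const _ ha0) hpos
      intro h4
      have := h4.resolve_left h3.1
      omega
  have key2 : A.y / B.x ∈ T.loc ∧ T.ord.Pos (A.y / B.x) := by
    have h1 := st_div_pos (some 0) (z := A.y - algebraMap ℂ L b * B.y)
      (Subalgebra.sub_mem _ hAym (Subalgebra.mul_mem _ (Subalgebra.algebraMap_mem _ _)
        (y_mem B))) hc
    rw [← hT, hTx] at h1
    have h2 : A.y / B.x = algebraMap ℂ L b * T.y +
        (A.y - algebraMap ℂ L b * B.y) / B.x := by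
      rw [hTy]
      field_simp
      ring
    rw [h2]
    refine ⟨Subalgebra.add_mem _ (Subalgebra.mul_mem _ (Subalgebra.algebraMap_mem _ _) hBym)
      h1.1, T.ord.pos_add ?_ h1.2⟩
    rw [mul_comm]
    refine T.ord.pos_mul_int (Or.inr ?_) (T.ord.int_const _)
    rw [ord_y]; norm_num
  have hinv := loc_inv key1.1 key1.2
  have e3 : (A.st (some 0)).x = A.x := A.st_some_x 0
  have e4 : (A.st (some 0)).y = (A.y / B.x) * (A.x / B.x)⁻¹ := by
    rw [A.st_some_y, map_zero, sub_zero]
    field_simp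
  refine loc_le ?_ ?_ ?_ ?_
  · rw [e3]; exact st_loc_mono (some 0) hAxm
  · rw [e4]; exact Subalgebra.mul_mem _ key2.1 hinv
  · rw [e3]
    have h1 : Cen B T.ord := cen_st_ord B (some 0)
    have h2 := ord_le_of_cen h1 hAxm hAx
    omega
  · rw [e4]
    have h1 : T.ord.Pos (A.y / B.x * (A.x / B.x)⁻¹) :=
      T.ord.pos_mul_int key2.2 (loc_int hinv)
    refine h1.resolve_left ?_
    exact mul_ne_zero (div_ne_zero A.y_ne hBx) (inv_ne_zero (div_ne_zero hAx hBx))

theorem st_eq {A B : Coord L} (h : A.loc = B.loc) {b : ℂ} (hb : b ≠ 0)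
    (hc : Cong B A.y (algebraMap ℂ L b * B.y)) :
    (A.st (some 0)).loc = (B.st (some 0)).loc := by
  refine le_antisymm (st_le h hc) (st_le h.symm (b := b⁻¹) ?_)
  refine cong_loc h.symm ?_
  have h1 := ge_const_mul (v := B.ord) (n := 2) (-b⁻¹) hc
  have hb' : algebraMap ℂ L b ≠ 0 := by rw [Ne, map_eq_zero]; exact hb
  have h2 : algebraMap ℂ L (-b⁻¹) * (A.y - algebraMap ℂ L b * B.y) =
      B.y - algebraMap ℂ L b⁻¹ * A.y := by
    rw [map_neg, map_inv₀]
    field_simp
    ring
  rw [h2] at h1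
  exact h1

/-- Coordinates with the same values have the same local ring. -/
theorem loc_congr {A B : Coord L} (hx : A.x = B.x) (hy : A.y = B.y) : A.loc = B.loc := by
  ext z
  rw [Coord.mem_loc, Coord.mem_loc, hx, hy]

/-- The coordinates `(x, y - c x)`. -/
theorem exists_shear (P : Coord L) (c : ℂ) : ∃ Q : Coord L, Q.x = P.x ∧
    Q.y = P.y - algebraMap ℂ L c * P.x := by
  obtain ⟨Q, h1, h2⟩ := (P.st (some c)).tor 1 0 1 1 (Or.inl (by norm_num))
  refine ⟨Q, ?_, ?_⟩
  · rw [h1, P.st_some_x]; simp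
  · have hx := P.x_ne
    rw [h2, zpow_one, zpow_one, P.st_some_x, P.st_some_y]
    field_simp

theorem shear_loc {P Q : Coord L} {c : ℂ} (hx : Q.x = P.x)
    (hy : Q.y = P.y - algebraMap ℂ L c * P.x) : Q.loc = P.loc := by
  have h1 : P.ord.v Q.x = 1 := by rw [hx, ord_x]
  have hy' : P.y = Q.y + algebraMap ℂ L c * Q.x := by rw [hy, hx]; ring
  have hx' : P.x = Q.x := hx.symm
  have m1 : Q.y ∈ P.loc := by
    rw [hy]
    exact Subalgebra.sub_mem _ (y_mem P) (Subalgebra.mul_mem _ (Subalgebra.algebraMap_mem _ _)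
      (x_mem P))
  have m2 : P.y ∈ Q.loc := by
    rw [hy']
    exact Subalgebra.add_mem _ (y_mem Q) (Subalgebra.mul_mem _ (Subalgebra.algebraMap_mem _ _)
      (x_mem Q))
  have p1 : P.ord.Pos Q.y := by
    rw [hy, sub_eq_add_neg]
    refine P.ord.pos_add (Or.inr (by rw [ord_y]; norm_num)) (P.ord.pos_neg ?_)
    rw [mul_comm]
    exact P.ord.pos_mul_int (Or.inr (by rw [ord_x]; norm_num)) (P.ord.int_const _)
  have p2 : Q.ord.Pos P.y := by
    rw [hy']
    refine Q.ord.pos_add (Or.inr (by rw [ord_y]; norm_num)) ?_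
    rw [mul_comm]
    exact Q.ord.pos_mul_int (Or.inr (by rw [ord_x]; norm_num)) (Q.ord.int_const _)
  refine loc_eq (hx ▸ x_mem P) m1 ?_ (p1.resolve_left Q.y_ne) (hx' ▸ x_mem Q) m2 ?_
    (p2.resolve_left P.y_ne)
  · rw [hx, ord_x]; norm_num
  · rw [hx', ord_x]; norm_num

theorem swap_loc {P Q : Coord L} (hx : Q.x = P.y) (hy : Q.y = P.x) : Q.loc = P.loc := by
  refine loc_eq (hx ▸ y_mem P) (hy ▸ x_mem P) ?_ ?_ (hy ▸ y_mem Q) (hx ▸ x_mem Q) ?_ ?_
  · rw [hx, ord_y]; norm_num
  · rw [hy, ord_x]; norm_num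
  · rw [← hy, ord_y]; norm_num
  · rw [← hx, ord_x]; norm_num

/-- The points of the blow-up are first points of adapted coordinates. -/
theorem exists_adapted (P : Coord L) (o : Option ℂ) : ∃ Q : Coord L, Q.loc = P.loc ∧
    (P.st o).x = Q.x ∧ (P.st o).y = Q.y / Q.x ∧ (Q.st (some 0)).loc = (P.st o).loc := by
  cases o with
  | some c =>
    obtain ⟨Q, hx, hy⟩ := exists_shear P c
    have h1 : (P.st (some c)).y = Q.y / Q.x := by
      rw [P.st_some_y, hx, hy]
      have := P.x_ne
      field_simp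
    refine ⟨Q, shear_loc hx hy, by rw [P.st_some_x, hx], h1, ?_⟩
    refine loc_congr ?_ ?_
    · rw [Q.st_some_x, P.st_some_x, hx]
    · rw [Q.st_some_y, map_zero, sub_zero, h1]
  | none =>
    obtain ⟨Q, hx, hy⟩ := P.swap
    have h1 : (P.st none).y = Q.y / Q.x := by rw [P.st_none_y, hx, hy]
    refine ⟨Q, swap_loc hx hy, by rw [P.st_none_x, hx], h1, ?_⟩
    refine loc_congr ?_ ?_
    · rw [Q.st_some_x, P.st_none_x, hx]
    · rw [Q.st_some_y, map_zero, sub_zero, h1]

end H62

/-- The points of the blow-up of a point. -/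
theorem next_iff {P : Coord L} {R' : Subalgebra ℂ L} :
    Next P.loc R' ↔ ∃ o, R' = (P.st o).loc := by
  constructor
  · rintro ⟨A, Q, hA, rfl, hQx, hQy⟩
    have hQ : Q.loc = (A.st (some 0)).loc := by
      refine loc_congr ?_ ?_
      · rw [hQx, A.st_some_x]
      · rw [hQy, A.st_some_y, map_zero, sub_zero]
    have e2 : P.ord.v A.y = 1 := by
      rw [← ord_same_of_loc hA _ A.y_ne, ord_y]
    obtain ⟨b0, b1, hb⟩ := exists_lin (P := P) (hA ▸ y_mem A) (Or.inr (by rw [e2]; norm_num))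
    by_cases h1 : b1 = 0
    · subst h1
      rw [map_zero, zero_mul, add_zero] at hb
      have h0 : b0 ≠ 0 := by
        rintro rfl
        rw [map_zero, zero_mul] at hb
        unfold Cong at hb
        rw [sub_zero] at hb
        have := hb.resolve_left A.y_ne
        omega
      obtain ⟨B, hBx, hBy⟩ := P.swap
      have hBl := swap_loc hBx hBy
      refine ⟨none, ?_⟩
      have h2 : (A.st (some 0)).loc = (B.st (some 0)).loc := by
        refine st_eq (hA.trans hBl.symm) h0 (cong_loc hBl.symm ?_)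
        rw [hBy]; exact hb
      rw [hQ, h2]
      refine loc_congr ?_ ?_
      · rw [B.st_some_x, P.st_none_x, hBx]
      · rw [B.st_some_y, map_zero, sub_zero, P.st_none_y, hBx, hBy]
    · obtain ⟨B, hBx, hBy⟩ := exists_shear P (-b0 / b1)
      have hBl := shear_loc hBx hBy
      refine ⟨some (-b0 / b1), ?_⟩
      have h2 : (A.st (some 0)).loc = (B.st (some 0)).loc := by
        refine st_eq (hA.trans hBl.symm) h1 (cong_loc hBl.symm ?_)
        rw [hBy]
        have h3 : algebraMap ℂ L b1 ≠ 0 := by rw [Ne, map_eq_zero]; exact h1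
        have h4 : algebraMap ℂ L b1 * (P.y - algebraMap ℂ L (-b0 / b1) * P.x) =
            algebraMap ℂ L b0 * P.x + algebraMap ℂ L b1 * P.y := by
          rw [map_div₀, map_neg]
          field_simp
          ring
        rw [h4]; exact hb
      rw [hQ, h2]
      refine loc_congr ?_ ?_
      · rw [B.st_some_x, P.st_some_x, hBx]
      · have := P.x_ne
        rw [B.st_some_y, map_zero, sub_zero, P.st_some_y, hBx, hBy]
        field_simp
  · rintro ⟨o, rfl⟩
    obtain ⟨Q, h1, h2, h3, -⟩ := exists_adapted P o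
    exact ⟨Q, P.st o, h1, rfl, h2, h3⟩

end

end LCY
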