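import Pool.Agent.Helper73.LCY.NoeC
import Pool.Agent.Helper98.LCY.LocE

/-!
MP_f7e214_ag: the intersection of a curve with the exceptional curve (ST_EXC of
`Helper73/LCY/Inter.lean`).
-/

open Polynomial

namespace LCY

noncomputable section

variable {L : Type} [Field L] [Algebra ℂ L]

open H62 H73

namespace H62

/-- A curve through the point passes through a point of the blow-up if and only if the strict
transform of its equation vanishes there. -/
theorem through_st_iff {P : Coord L} {g : ℂ[X][X]} {w : DVal L} (hw : IsAdic P g w)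
    (h0 : cf g (0, 0) = 0) (o : Option ℂ) :
    Through (P.st o).loc w ↔ cf (bq o (ordn g) g) (0, 0) = 0 := by
  constructor
  · intro h
    by_contra hne
    have hT : Through P.loc w := (H81.st_A6 L P w).2 ⟨g, hw, h0⟩
    have hg := hw.1.ne_zero
    have h1 : 0 < w.v (ev P.x P.y g) := (H98.adic_pos_iff hw hg).2 dvd_rfl
    have h2 := P.ev_st o g
    rw [bl_eq (oe_ordn hg).1 o, map_mul, map_pow, ev_CX] at h2
    have h3 := (P.st o).ne (ne_of_cf hne)
    have h4 : w.v (ev (P.st o).x (P.st o).y (bq o (ordn g) g)) = 0 := by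
      refine H98.nn_unit h.1 h3 ((P.st o).ev_mem_loc _) ?_
      exact ⟨1, _, hne, by rw [map_one, one_div]⟩
    have htne := (P.st o).x_ne
    rw [← h2, w.map_mul _ _ (pow_ne_zero _ htne) h3, h4, add_zero, w.map_pow htne] at h1
    have h5 : 0 < w.v (P.st o).x := by
      by_contra hcon
      push Not at hcon
      have : (ordn g : ℤ) * w.v (P.st o).x ≤ 0 :=
        mul_nonpos_of_nonneg_of_nonpos (by positivity) hcon
      omega
    obtain ⟨g', hg', -⟩ := (H81.st_A6 L (P.st o) w).1 h
    rw [← ev_CX (P.st o).x (P.st o).y, H98.adic_pos_iff hg' CX_ne] at h5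
    have h6 := H98.adic_ord
      (H98.adic_assoc hg' (hg'.1.associated_of_dvd prime_CX.irreducible h5))
    refine H98.not_centred_of_through hT (H98.centred_iff.2 ?_)
    rw [h6 _ P.x_ne, h6 _ P.y_ne, ord_x, ord_y]
    exact ⟨one_pos, one_pos⟩
  · exact H98.strict_through H81.st_A6 hw h0

theorem rootMult_zero {p : ℂ[X]} (h : p.coeff 0 ≠ 0) : p.rootMultiplicity 0 = 0 := by
  apply rootMultiplicity_eq_zero
  rw [IsRoot, ← coeff_zero_eq_eval_zero]
  exact h

/-- The local intersection number with the exceptional curve. -/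
theorem inter_st {P : Coord L} {g : ℂ[X][X]} {v w : DVal L} (hv : v.Same P.ord)
    (hw : IsAdic P g w) (h0 : cf g (0, 0) = 0) (o : Option ℂ) :
    inter (P.st o).loc v w = (r0 (bq o (ordn g) g)).rootMultiplicity 0 := by
  have hv' := H98.ord_adic P o hv
  have hTv : Through (P.st o).loc v := (H81.st_A6 L _ v).2 ⟨_, hv', H98.cf_CX0⟩
  have hp := (r0_bq_ne (oe_ordn hw.1.ne_zero) o).1
  unfold inter
  by_cases h : cf (bq o (ordn g) g) (0, 0) = 0
  · have hTw := (through_st_iff hw h0 o).2 h
    have hw' := H98.strict_adic hw (H98.not_dvd_eP hw.1 h h0)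
    rw [if_pos ⟨hTv, hTw⟩, pid_eq hv' H98.cf_CX0, pid_eq hw' h]
    obtain ⟨u, hu, hd⟩ := exists_eq_pow_rootMultiplicity_mul_and_not_dvd
      (r0 (bq o (ordn g) g)) hp 0
    rw [C_0, sub_zero] at hu hd
    have hu0 : u.coeff 0 ≠ 0 := fun h1 => hd (X_dvd_iff.2 h1)
    have h1 := loc0 (P.st o) hu0 hu
    unfold ixh at h1
    rw [h1, max_eq_right]
    rw [Nat.one_le_iff_ne_zero, ← Nat.pos_iff_ne_zero, rootMultiplicity_pos hp, IsRoot,
      ← coeff_zero_eq_eval_zero, r0_coeff]
    exact h
  · rw [if_neg (fun hT => h ((through_st_iff hw h0 o).1 hT.2)), rootMult_zero]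
    rw [r0_coeff]
    exact h

theorem rootMult_some {P : Coord L} {g : ℂ[X][X]} {w : DVal L} (hw : IsAdic P g w) (c : ℂ) :
    (r0 (bq (some c) (ordn g) g)).rootMultiplicity 0 = (lp (ordn g) g).rootMultiplicity c := by
  rw [r0_bq_some (oe_ordn hw.1.ne_zero).1, ← rootMultiplicity_eq_rootMultiplicity]

theorem rootMult_none {P : Coord L} {g : ℂ[X][X]} {w : DVal L} (hw : IsAdic P g w) :
    (r0 (bq none (ordn g) g)).rootMultiplicity 0 + (lp (ordn g) g).natDegree = ordn g := by
  have hm := oe_ordn hw.1.ne_zero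
  rw [r0_bq_none hm.1, rootMultiplicity_eq_natTrailingDegree']
  set n := ordn g with hn
  set d := (lp n g).natDegree with hd
  have hdn : d ≤ n := lp_natDegree_le n g
  have h1 : (lp n g).coeff d ≠ 0 := by
    rw [hd, coeff_natDegree, Ne, leadingCoeff_eq_zero]
    exact lp_ne hm
  have h2 : (lq n g).coeff (n - d) ≠ 0 := by
    rw [lq_coeff, if_pos (Nat.sub_le _ _), Nat.sub_sub_self hdn]
    rw [lp_coeff, if_pos hdn] at h1
    exact h1
  have h3 : ∀ j, j < n - d → (lq n g).coeff j = 0 := by
    intro j hj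
    have h4 : (lp n g).coeff (n - j) = 0 := coeff_eq_zero_of_natDegree_lt (by omega)
    rw [lp_coeff, if_pos (Nat.sub_le _ _), Nat.sub_sub_self (by omega)] at h4
    rw [lq_coeff, if_pos (by omega), h4]
  have h4 : (lq n g).natTrailingDegree = n - d := by
    apply le_antisymm
    · exact natTrailingDegree_le_of_ne_zero h2
    · by_contra hcon
      push Not at hcon
      have h5 := h3 _ hcon
      have h6 : (lq n g).trailingCoeff ≠ 0 := by
        rw [Ne, trailingCoeff_eq_zero]
        exact lq_ne hm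
      exact h6 h5
  rw [h4]
  omega

end H62

/-- **EXC.** -/
theorem H62.st_EXC : ST_EXC := by
  classical
  intro L _ _ P v w hv hw
  have hv' := LCY.isOrd_iff.1 hv
  obtain ⟨g, hg, h0⟩ := (H81.st_A6 L P w).1 hw
  have hmul : mul P.loc w = ordn g := (H81.st_A7 L P w g hg h0).1
  have hlp : lp (ordn g) g ≠ 0 := lp_ne (oe_ordn hg.1.ne_zero)
  have hset : {R' | Next P.loc R'} = Set.range (fun o => (P.st o).loc) := by
    ext R'
    rw [Set.mem_ofPred_eq, Set.mem_range]
    rw [LCY.next_iff]
    exact ⟨fun ⟨o, h⟩ => ⟨o, h.symm⟩, fun ⟨o, h⟩ => ⟨o, h.symm⟩⟩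
  have hinj : Function.Injective (fun o => (P.st o).loc) := fun o o' h => H98.st_loc_inj h
  have hsome : ∀ c : ℂ, inter (P.st (some c)).loc v w = (lp (ordn g) g).roots.count c := by
    intro c
    rw [inter_st hv' hg h0, rootMult_some hg, count_roots]
  refine ⟨?_, ?_⟩
  · refine Set.Finite.subset (s := (fun o => (P.st o).loc) ''
      (↑(Finset.insertNone (lp (ordn g) g).roots.toFinset) : Set (Option ℂ)))
      ((Finset.finite_toSet _).image _) ?_
    rintro R' ⟨h1, h2⟩
    obtain ⟨o, rfl⟩ := LCY.next_iff.1 h1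
    refine ⟨o, ?_, rfl⟩
    rw [Finset.mem_coe]
    cases o with
    | none => exact Finset.none_mem_insertNone
    | some c =>
      rw [Finset.some_mem_insertNone, Multiset.mem_toFinset, ← Multiset.count_ne_zero, ← hsome]
      exact h2
  · rw [hset, finsum_mem_range hinj, hmul]
    have hsupp : (Function.support (fun c : ℂ => (inter (P.st (some c)).loc v w : ℤ))) ⊆
        ((lp (ordn g) g).roots.toFinset : Set ℂ) := by
      intro c hc
      rw [Function.mem_support] at hc
      rw [Finset.mem_coe, Multiset.mem_toFinset, ← Multiset.count_ne_zero, ← hsome]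
      exact_mod_cast hc
    rw [finsum_option (f := fun o => (inter (P.st o).loc v w : ℤ))
      ((Finset.finite_toSet _).subset hsupp)]
    rw [finsum_eq_sum_of_support_subset _ hsupp]
    have h1 : ∑ c ∈ (lp (ordn g) g).roots.toFinset, (inter (P.st (some c)).loc v w : ℤ) =
        ((lp (ordn g) g).natDegree : ℤ) := by
      have h2 : (lp (ordn g) g).roots.card = (lp (ordn g) g).natDegree :=
        (IsAlgClosed.card_roots_eq_natDegree (p := lp (ordn g) g))
      rw [← h2, ← Multiset.toFinset_sum_count_eq, Nat.cast_sum]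
      exact Finset.sum_congr rfl fun c _ => by rw [hsome]
    rw [h1, inter_st hv' hg h0]
    have h2 := rootMult_none hg
    exact_mod_cast h2.symm

end

end LCY
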