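import Pool.Agent.Helper62.LCY.N1

/-!
MP_f7e214_ag, local layer, part 2: the valuation of a prime polynomial, the local ring of the
origin, the points of the blow-up, the order valuation.
-/

open Polynomial

namespace LCY

noncomputable section

variable {L : Type} [Field L] [Algebra ℂ L]

namespace H62

theorem fin_mult {p : ℂ[X][X]} (hp : Prime p) {f : ℂ[X][X]} (hf : f ≠ 0) :
    FiniteMultiplicity p f := FiniteMultiplicity.of_not_isUnit hp.not_isUnit hf

theorem mult_mul {p : ℂ[X][X]} (hp : Prime p) {f g : ℂ[X][X]} (hf : f ≠ 0) (hg : g ≠ 0) :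
    multiplicity p (f * g) = multiplicity p f + multiplicity p g :=
  multiplicity_mul hp (fin_mult hp (mul_ne_zero hf hg))

theorem le_mult {p : ℂ[X][X]} (hp : Prime p) {f : ℂ[X][X]} (hf : f ≠ 0) {n : ℕ} :
    p ^ n ∣ f ↔ n ≤ multiplicity p f := (fin_mult hp hf).pow_dvd_iff_le_multiplicity

theorem mult_zero {p : ℂ[X][X]} {f : ℂ[X][X]} (h : ¬ p ∣ f) : multiplicity p f = 0 :=
  multiplicity_eq_zero.2 h

theorem rep (P : Coord L) {z : L} (hz : z ≠ 0) : ∃ a : ℂ[X][X] × ℂ[X][X], a.1 ≠ 0 ∧ a.2 ≠ 0 ∧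
    z = ev P.x P.y a.1 / ev P.x P.y a.2 := by
  obtain ⟨f, g, hg, h⟩ := P.surj z
  refine ⟨(f, g), ?_, hg, h⟩
  rintro rfl
  rw [map_zero, zero_div] at h
  exact hz h

/-- The value at a nonzero element of the valuation of a prime polynomial. -/
def pv (P : Coord L) (p : ℂ[X][X]) (z : L) : ℤ :=
  open Classical in
  if h : z ≠ 0 then
    (multiplicity p (Classical.choose (rep P h)).1 : ℤ) -
      multiplicity p (Classical.choose (rep P h)).2
  else 0

theorem pv_eq (P : Coord L) {p : ℂ[X][X]} (hp : Prime p) {f g : ℂ[X][X]} (hf : f ≠ 0)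
    (hg : g ≠ 0) {z : L} (hz : z = ev P.x P.y f / ev P.x P.y g) :
    pv P p z = (multiplicity p f : ℤ) - multiplicity p g := by
  have h0 : z ≠ 0 := by
    rw [hz]
    exact div_ne_zero (P.ne hf) (P.ne hg)
  unfold pv
  rw [dif_pos h0]
  obtain ⟨h1, h2, h3⟩ := Classical.choose_spec (rep P h0)
  set a := Classical.choose (rep P h0) with ha
  have h4 : f * a.2 = a.1 * g := by
    rw [← sub_eq_zero]
    apply P.inj
    rw [map_sub, map_mul, map_mul]
    have e1 := P.ne hg
    have e2 := P.ne h2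
    rw [h3] at hz
    field_simp at hz
    rw [sub_eq_zero]
    linear_combination -hz
  have h5 := congrArg (multiplicity p) h4
  rw [mult_mul hp hf h2, mult_mul hp h1 hg] at h5
  omega

theorem pv_ev (P : Coord L) {p : ℂ[X][X]} (hp : Prime p) {f : ℂ[X][X]} (hf : f ≠ 0) :
    pv P p (ev P.x P.y f) = (multiplicity p f : ℤ) := by
  rw [pv_eq P hp hf one_ne_zero (z := ev P.x P.y f) (by rw [map_one, div_one])]
  rw [mult_zero (p := p) (f := 1)]
  · simp
  · exact fun h => hp.not_isUnit (isUnit_of_dvd_one h)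

theorem not_dvd_mapC {q : ℂ[X]} (hq : ¬ IsUnit q) {Q : ℂ[X]} (hQ : Q ≠ 0) :
    ¬ (C q : ℂ[X][X]) ∣ Q.map C := by
  intro h
  rw [C_dvd_iff_dvd_coeff] at h
  have h1 := h Q.natDegree
  rw [coeff_map] at h1
  have h2 : IsUnit (C (Q.coeff Q.natDegree) : ℂ[X]) := by
    rw [isUnit_C]
    exact isUnit_iff_ne_zero.2 (by rw [coeff_natDegree, Ne, leadingCoeff_eq_zero]; exact hQ)
  exact hq (isUnit_of_dvd_unit h1 h2)

theorem exists_res_prime (P : Coord L) {p : ℂ[X][X]} (hp : Prime p) :
    ∃ t, ResTr (pv P p) t := by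
  by_cases h : ∀ Q : ℂ[X], Q ≠ 0 → ¬ p ∣ C Q
  · refine ⟨P.x, fun Q hQ => ?_⟩
    have h1 : (C Q : ℂ[X][X]) ≠ 0 := by rw [Ne, C_eq_zero]; exact hQ
    have h2 : aeval P.x Q = ev P.x P.y (C Q) := (ev_C _ _ _).symm
    refine ⟨by rw [h2]; exact P.ne h1, ?_⟩
    rw [h2, pv_ev P hp h1, mult_zero (h Q hQ)]
    rfl
  · push Not at h
    obtain ⟨Q, hQ, h1⟩ := h
    have h2 : p = C (p.coeff 0) := by
      apply eq_C_of_natDegree_eq_zero
      have := natDegree_le_of_dvd h1 (by rw [Ne, C_eq_zero]; exact hQ)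
      rw [natDegree_C] at this
      omega
    refine ⟨P.y, fun R hR => ?_⟩
    have h3 : (R.map C : ℂ[X][X]) ≠ 0 := by
      rw [Ne, Polynomial.map_eq_zero_iff C_injective]
      exact hR
    have h4 : aeval P.y R = ev P.x P.y (R.map C) := (ev_mapC _ _ _).symm
    refine ⟨by rw [h4]; exact P.ne h3, ?_⟩
    rw [h4, pv_ev P hp h3, mult_zero]
    · rfl
    · rw [h2]
      refine not_dvd_mapC (fun hu => hp.not_isUnit ?_) hR
      rw [h2]
      exact hu.map C

end H62

open H62

/-- The valuation of the curve with prime equation `p`. -/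
def Coord.pval (P : Coord L) (p : ℂ[X][X]) (hp : Prime p) : DVal L where
  v := pv P p
  map_mul := by
    intro a b ha hb
    obtain ⟨⟨f, g⟩, hf, hg, h1⟩ := rep P ha
    obtain ⟨⟨f', g'⟩, hf', hg', h2⟩ := rep P hb
    rw [pv_eq P hp hf hg h1, pv_eq P hp hf' hg' h2,
      pv_eq P hp (mul_ne_zero hf hf') (mul_ne_zero hg hg') (z := a * b) (by
        rw [h1, h2, _root_.map_mul, _root_.map_mul, div_mul_div_comm]),
      mult_mul hp hf hf', mult_mul hp hg hg']
    push_cast
    ring
  map_add := by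
    intro a b ha hb hab
    obtain ⟨⟨f, g⟩, hf, hg, h1⟩ := rep P ha
    obtain ⟨⟨f', g'⟩, hf', hg', h2⟩ := rep P hb
    dsimp only at hf hg hf' hg' h1 h2
    have h3 : a + b = ev P.x P.y (f * g' + f' * g) / ev P.x P.y (g * g') := by
      rw [h1, h2, _root_.map_add, _root_.map_mul, _root_.map_mul, _root_.map_mul,
        div_add_div _ _ (P.ne hg) (P.ne hg')]
      ring
    have h4 : f * g' + f' * g ≠ 0 := by
      intro h0
      rw [h0, map_zero, zero_div] at h3
      exact hab h3
    rw [pv_eq P hp hf hg h1, pv_eq P hp hf' hg' h2, pv_eq P hp h4 (mul_ne_zero hg hg') h3,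
      mult_mul hp hg hg']
    have h5 : min (multiplicity p f + multiplicity p g') (multiplicity p f' + multiplicity p g) ≤
        multiplicity p (f * g' + f' * g) := by
      rw [← le_mult hp h4]
      refine dvd_add ?_ ?_
      · rw [le_mult hp (mul_ne_zero hf hg'), mult_mul hp hf hg']
        exact min_le_left _ _
      · rw [le_mult hp (mul_ne_zero hf' hg), mult_mul hp hf' hg]
        exact min_le_right _ _
    rcases min_le_iff.1 h5 with h6 | h6
    · refine le_trans (min_le_left _ _) ?_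
      push_cast
      omega
    · refine le_trans (min_le_right _ _) ?_
      push_cast
      omega
  map_const := by
    intro c hc
    have h1 : (C (C c) : ℂ[X][X]) ≠ 0 := by
      rw [Ne, C_eq_zero, C_eq_zero]
      exact hc
    have h2 : algebraMap ℂ L c = ev P.x P.y (C (C c)) := (ev_CC _ _ _).symm
    rw [h2, pv_ev P hp h1, mult_zero]
    · rfl
    · intro h
      refine hp.not_isUnit (isUnit_of_dvd_unit h ?_)
      exact ((isUnit_iff_ne_zero.2 hc).map C).map C
  exists_unif := by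
    refine ⟨ev P.x P.y p, P.ne hp.ne_zero, ?_⟩
    rw [pv_ev P hp hp.ne_zero, multiplicity_self]
    rfl
  exists_res := exists_res_prime P hp

theorem Coord.pval_ev (P : Coord L) {p : ℂ[X][X]} (hp : Prime p) {f : ℂ[X][X]} (hf : f ≠ 0) :
    (P.pval p hp).v (ev P.x P.y f) = (multiplicity p f : ℤ) := pv_ev P hp hf

/-- The local ring of the origin of a pair of coordinates. -/
def Coord.loc (P : Coord L) : Subalgebra ℂ L where
  carrier := {z | ∃ f g : ℂ[X][X], cf g (0, 0) ≠ 0 ∧ z = ev P.x P.y f / ev P.x P.y g}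
  mul_mem' := by
    rintro a b ⟨f, g, hg, rfl⟩ ⟨f', g', hg', rfl⟩
    refine ⟨f * f', g * g', ?_, by rw [map_mul, map_mul, div_mul_div_comm]⟩
    unfold cf
    rw [mul_coeff_zero, mul_coeff_zero]
    exact mul_ne_zero hg hg'
  add_mem' := by
    rintro a b ⟨f, g, hg, rfl⟩ ⟨f', g', hg', rfl⟩
    refine ⟨f * g' + f' * g, g * g', ?_, ?_⟩
    · unfold cf
      rw [mul_coeff_zero, mul_coeff_zero]
      exact mul_ne_zero hg hg'
    · have h1 : g ≠ 0 := by rintro rfl; exact hg (cf_zero _)
      have h2 : g' ≠ 0 := by rintro rfl; exact hg' (cf_zero _)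
      rw [map_add, map_mul, map_mul, map_mul, div_add_div _ _ (P.ne h1) (P.ne h2)]
      ring
  algebraMap_mem' := by
    intro c
    refine ⟨C (C c), 1, ?_, by rw [map_one, div_one, ev_CC]⟩
    simp [cf]

theorem Coord.mem_loc {P : Coord L} {z : L} : z ∈ P.loc ↔
    ∃ f g : ℂ[X][X], cf g (0, 0) ≠ 0 ∧ z = ev P.x P.y f / ev P.x P.y g := Iff.rfl

theorem Coord.ev_mem_loc (P : Coord L) (f : ℂ[X][X]) : ev P.x P.y f ∈ P.loc :=
  ⟨f, 1, by simp [cf], by rw [map_one, div_one]⟩

theorem H62.exists_st (P : Coord L) (o : Option ℂ) : ∃ Q : Coord L,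
    (∀ c, o = some c → Q.x = P.x ∧ Q.y = P.y / P.x - algebraMap ℂ L c) ∧
    (o = none → Q.x = P.y ∧ Q.y = P.x / P.y) := by
  have hx := P.x_ne
  have hy := P.y_ne
  cases o with
  | some c =>
    obtain ⟨Q, h1, h2⟩ := P.tor 1 0 (-1) 1 (Or.inl (by norm_num))
    obtain ⟨R, h3, h4⟩ := Q.trans 0 c
    refine ⟨R, ?_, fun h => by cases h⟩
    intro c' hc'
    cases hc'
    rw [h3, h4, h1, h2]
    constructor
    · simp
    · rw [zpow_one, zpow_neg_one]; ring
  | none =>
    obtain ⟨Q, h1, h2⟩ := P.tor 0 1 1 (-1) (Or.inr (by norm_num))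
    refine ⟨Q, fun c h => absurd h (by simp), fun _ => ?_⟩
    rw [h1, h2]
    constructor
    · simp
    · rw [zpow_one, zpow_neg_one]; ring

/-- The points of the blow-up of the origin: `some c` is `(x, y / x - c)`, `none` is
`(y, x / y)`; the first coordinate is the equation of the exceptional curve. -/
def Coord.st (P : Coord L) (o : Option ℂ) : Coord L := Classical.choose (exists_st P o)

theorem Coord.st_some_x (P : Coord L) (c : ℂ) : (P.st (some c)).x = P.x :=
  ((Classical.choose_spec (exists_st P (some c))).1 c rfl).1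

theorem Coord.st_some_y (P : Coord L) (c : ℂ) :
    (P.st (some c)).y = P.y / P.x - algebraMap ℂ L c :=
  ((Classical.choose_spec (exists_st P (some c))).1 c rfl).2

theorem Coord.st_none_x (P : Coord L) : (P.st none).x = P.y :=
  ((Classical.choose_spec (exists_st P none)).2 rfl).1

theorem Coord.st_none_y (P : Coord L) : (P.st none).y = P.x / P.y :=
  ((Classical.choose_spec (exists_st P none)).2 rfl).2

theorem H62.ev_bl_some (x y : L) (c : ℂ) (f : ℂ[X][X]) :
    ev x y (bl (some c) f) = ev x (x * (y + algebraMap ℂ L c)) f := by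
  rw [bl_some_eq, map_sum, ev_eq_sum]
  refine Finset.sum_congr rfl fun e _ => ?_
  rw [map_mul, map_mul, map_pow, map_pow, map_add, ev_CC, ev_CC, ev_CX, ev_X, mul_pow, pow_add]
  ring

theorem H62.ev_bl_none (x y : L) (f : ℂ[X][X]) :
    ev x y (bl none f) = ev (x * y) x f := by
  rw [bl_none_eq, map_sum, ev_eq_sum]
  refine Finset.sum_congr rfl fun e _ => ?_
  rw [map_mul, map_mul, map_pow, map_pow, ev_CC, ev_CX, ev_X, mul_pow, pow_add]
  ring

/-- Evaluation of the transform at the new point. -/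
theorem Coord.ev_st (P : Coord L) (o : Option ℂ) (f : ℂ[X][X]) :
    ev (P.st o).x (P.st o).y (bl o f) = ev P.x P.y f := by
  have hx := P.x_ne
  have hy := P.y_ne
  cases o with
  | some c =>
    rw [ev_bl_some, P.st_some_x, P.st_some_y]
    congr 2
    field_simp
    ring
  | none =>
    rw [ev_bl_none, P.st_none_x, P.st_none_y]
    congr 2
    field_simp

/-- The order valuation of the origin of a pair of coordinates. -/
def Coord.ord (P : Coord L) : DVal L := (P.st none).pval (C X) prime_CX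

theorem H62.mult_bl {m : ℕ} {f : ℂ[X][X]} (h : OE m f) (o : Option ℂ) :
    multiplicity (C X) (bl o f) = m := by
  have hne : bl o f ≠ 0 := by
    rw [bl_eq h.1]
    refine mul_ne_zero (pow_ne_zero _ CX_ne) ?_
    intro h0
    apply (r0_bq_ne h o).1
    rw [h0]
    exact r0_of_dvd (dvd_zero _)
  apply le_antisymm
  · have h1 : OG (multiplicity (C X) (bl o f)) f :=
      (og_iff_dvd o).2 ((le_mult prime_CX hne).2 le_rfl)
    exact h.le h1
  · rw [← le_mult prime_CX hne]
    exact (og_iff_dvd o).1 h.1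

theorem H62.bl_ne {f : ℂ[X][X]} (hf : f ≠ 0) (o : Option ℂ) : bl o f ≠ 0 := by
  obtain ⟨m, h⟩ := exists_OE hf
  rw [bl_eq h.1]
  refine mul_ne_zero (pow_ne_zero _ CX_ne) ?_
  intro h0
  apply (r0_bq_ne h o).1
  rw [h0]
  exact r0_of_dvd (dvd_zero _)

/-- The exceptional curve seen at any point of the blow-up. -/
theorem H62.exc_ev (P : Coord L) (o : Option ℂ) {m : ℕ} {f : ℂ[X][X]} (h : OE m f) :
    ((P.st o).pval (C X) prime_CX).v (ev P.x P.y f) = m := by
  rw [← P.ev_st o f, Coord.pval_ev _ _ (bl_ne h.ne o), mult_bl h o]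

theorem Coord.ord_ev (P : Coord L) {m : ℕ} {f : ℂ[X][X]} (h : OE m f) :
    P.ord.v (ev P.x P.y f) = m := exc_ev P none h

/-- The order valuation is the valuation of the exceptional curve at every point of the
blow-up. -/
theorem Coord.ord_same (P : Coord L) (o : Option ℂ) :
    P.ord.Same ((P.st o).pval (C X) prime_CX) := by
  intro a ha
  obtain ⟨⟨f, g⟩, hf, hg, h1⟩ := rep P ha
  obtain ⟨m, hm⟩ := exists_OE hf
  obtain ⟨n, hn⟩ := exists_OE hg
  rw [h1, P.ord.map_div (P.ne hf) (P.ne hg), DVal.map_div _ (P.ne hf) (P.ne hg),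
    P.ord_ev hm, P.ord_ev hn, exc_ev P o hm, exc_ev P o hn]

/-- The valuation of the line at infinity: minus the total degree. -/
theorem H62.exists_inf (P : Coord L) : ∃ Q : Coord L, Q.x = P.x⁻¹ ∧ Q.y = P.y / P.x := by
  obtain ⟨Q, h1, h2⟩ := P.tor (-1) 0 (-1) 1 (Or.inr (by norm_num))
  refine ⟨Q, ?_, ?_⟩
  · rw [h1]; simp
  · rw [h2, zpow_one, zpow_neg_one]; ring

/-- The pair of coordinates `(1 / x, y / x)` at infinity. -/
def Coord.cinf (P : Coord L) : Coord L := Classical.choose (exists_inf P)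

theorem Coord.cinf_x (P : Coord L) : P.cinf.x = P.x⁻¹ := (Classical.choose_spec (exists_inf P)).1

theorem Coord.cinf_y (P : Coord L) : P.cinf.y = P.y / P.x :=
  (Classical.choose_spec (exists_inf P)).2

/-- The valuation of the line at infinity of the plane with affine coordinates `x, y`. -/
def Coord.inf (P : Coord L) : DVal L := P.cinf.pval (C X) prime_CX

end

end LCY
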