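import Pool.Agent.Helper62.LCY.N6
import Pool.Agent.Helper51.LCY.Z1

/-!
MP_f7e214_ag, local layer, part 7: the local data of a minimal plane structure at the points of
the plane and of its blow-ups at points of maximal multiplicity (`H2.ST_LOC`).
-/

open Polynomial

namespace LCY

noncomputable section

variable {L : Type} [Field L] [Algebra ℂ L] {N : ℕ}

open H62 H51

namespace H62

/-- The affine linear polynomial. -/
def afp (a : Fin 3 → ℂ) : ℂ[X][X] := C (C (a 0)) + C (C (a 1)) * C X + C (C (a 2)) * X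

theorem ev_afp (x y : L) (a : Fin 3 → ℂ) : ev x y (afp a) =
    algebraMap ℂ L (a 0) + algebraMap ℂ L (a 1) * x + algebraMap ℂ L (a 2) * y := by
  unfold afp
  rw [map_add, map_add, map_mul, map_mul, ev_CC, ev_CC, ev_CC, ev_CX, ev_X]

theorem CC_mem_Vn (c : ℂ) (n : ℕ) : (C (C c) : ℂ[X][X]) ∈ Vn n := by
  intro e he
  have : e = (0, 0) := by
    by_contra hne
    apply he
    unfold cf
    rcases Nat.eq_zero_or_pos e.2 with h | h
    · rw [h, coeff_C_zero, coeff_C]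
      rw [if_neg]
      intro h1
      exact hne (Prod.ext h1 h)
    · rw [coeff_C, if_neg (by omega), coeff_zero]
  rw [this]; simp

theorem CX_mem_Vn : (C X : ℂ[X][X]) ∈ Vn 1 := by
  intro e he
  unfold cf at he
  rcases Nat.eq_zero_or_pos e.2 with h | h
  · rw [h, coeff_C_zero, coeff_X] at he
    have : 1 = e.1 := by
      by_contra h1
      exact he (if_neg h1)
    omega
  · rw [coeff_C, if_neg (by omega), coeff_zero] at he
    exact absurd rfl he

theorem X_mem_Vn : (X : ℂ[X][X]) ∈ Vn 1 := by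
  intro e he
  unfold cf at he
  rw [coeff_X] at he
  split_ifs at he with h
  · rw [coeff_one] at he
    have : e.1 = 0 := by
      by_contra h1
      exact he (if_neg h1)
    omega
  · rw [coeff_zero] at he
    exact absurd rfl he

theorem afp_mem (a : Fin 3 → ℂ) : afp a ∈ Vn 1 := by
  unfold afp
  refine Submodule.add_mem _ (Submodule.add_mem _ (CC_mem_Vn _ _) ?_) ?_
  · have := Vn_mul (CC_mem_Vn (a 1) 0) CX_mem_Vn
    rwa [zero_add] at this
  · have := Vn_mul (CC_mem_Vn (a 2) 0) X_mem_Vn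
    rwa [zero_add] at this

theorem Vn_pow {n : ℕ} {f : ℂ[X][X]} (h : f ∈ Vn n) (k : ℕ) : f ^ k ∈ Vn (k * n) := by
  induction k with
  | zero =>
    rw [pow_zero, Nat.zero_mul]
    have := CC_mem_Vn 1 0
    rwa [C_1, C_1] at this
  | succ k ih =>
    rw [pow_succ, Nat.succ_mul]
    exact Vn_mul ih h

/-- Projective change of a polynomial of total degree at most `d`. -/
def prj (d : ℕ) (a b c : Fin 3 → ℂ) (f : ℂ[X][X]) : ℂ[X][X] :=
  ∑ e ∈ bs f, C (C (cf f e)) * (afp a ^ (d - (e.1 + e.2)) * afp b ^ e.1 * afp c ^ e.2)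

theorem prj_mem {d : ℕ} (a b c : Fin 3 → ℂ) {f : ℂ[X][X]}
    (h : ∀ e, cf f e ≠ 0 → e.1 + e.2 ≤ d) : prj d a b c f ∈ Vn d := by
  refine Submodule.sum_mem _ fun e he => ?_
  have h1 := h e (mem_bs.1 he)
  have h2 := Vn_mul (CC_mem_Vn (cf f e) 0) (Vn_mul (Vn_mul (Vn_pow (afp_mem a) (d - (e.1 + e.2)))
    (Vn_pow (afp_mem b) e.1)) (Vn_pow (afp_mem c) e.2))
  rwa [show 0 + ((d - (e.1 + e.2)) * 1 + e.1 * 1 + e.2 * 1) = d by omega] at h2

theorem ev_prj {d : ℕ} (a b c : Fin 3 → ℂ) {f : ℂ[X][X]}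
    (h : ∀ e, cf f e ≠ 0 → e.1 + e.2 ≤ d) {x y l u w : L} (hl : l ≠ 0)
    (h0 : ev u w (afp a) = 1 / l) (h1 : ev u w (afp b) = x / l) (h2 : ev u w (afp c) = y / l) :
    ev u w (prj d a b c f) = (l ^ d)⁻¹ * ev x y f := by
  unfold prj
  rw [map_sum, ev_eq_sum, Finset.mul_sum]
  refine Finset.sum_congr rfl fun e he => ?_
  have h3 := h e (mem_bs.1 he)
  rw [map_mul, map_mul, map_mul, map_pow, map_pow, map_pow, ev_CC, h0, h1, h2]
  have h4 : l ^ d = l ^ (d - (e.1 + e.2)) * l ^ e.1 * l ^ e.2 := by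
    rw [← pow_add, ← pow_add]
    congr 1
    omega
  have h5 : l ^ (d - (e.1 + e.2)) ≠ 0 := pow_ne_zero _ hl
  have h6 : l ^ e.1 ≠ 0 := pow_ne_zero _ hl
  have h7 : l ^ e.2 ≠ 0 := pow_ne_zero _ hl
  rw [h4, div_pow, div_pow, div_pow, one_pow]
  field_simp

/-- The bracket of two linear forms. -/
theorem br_lin (ω : Bracket L) (S : Coord L) (a b : Fin 3 → ℂ) :
    ω.br (lin S a) (lin S b) =
      algebraMap ℂ L (a 1 * b 2 - a 2 * b 1) * ω.br S.x S.y := by
  unfold lin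
  simp only [ω.add_left, ω.add_right, ω.mul_left, ω.mul_right, ω.const_left, ω.const_right,
    ω.alt]
  rw [ω.skew S.y S.x, map_sub, map_mul, map_mul]
  ring

/-- The 2-form in projective coordinates. -/
theorem br_proj (ω : Bracket L) (S : Coord L) (A : Matrix (Fin 3) (Fin 3) ℂ)
    (h0 : lin S (A 0) ≠ 0) :
    ω.br (lin S (A 1) / lin S (A 0)) (lin S (A 2) / lin S (A 0)) =
      algebraMap ℂ L A.det * ω.br S.x S.y / lin S (A 0) ^ 3 := by
  have h1 := br_lin ω S (A 1) (A 2)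
  have h2 := br_lin ω S (A 0) (A 2)
  have h3 := br_lin ω S (A 1) (A 0)
  have h4 : ω.br (lin S (A 1) / lin S (A 0)) (lin S (A 2) / lin S (A 0)) =
      (lin S (A 0) * ω.br (lin S (A 1)) (lin S (A 2)) -
        lin S (A 1) * ω.br (lin S (A 0)) (lin S (A 2)) -
        lin S (A 2) * ω.br (lin S (A 1)) (lin S (A 0))) / lin S (A 0) ^ 3 := by
    rw [div_eq_mul_inv, div_eq_mul_inv, ω.mul_left, ω.mul_right, ω.mul_right, ω.inv_left h0,
      ω.inv_left h0, ω.inv_right h0, ω.inv_right h0, ω.alt]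
    field_simp
    ring
  rw [h4, h1, h2, h3, Matrix.det_fin_three]
  congr 1
  unfold lin
  simp only [map_add, map_sub, map_mul]
  ring

end H62

/-- A projective change of coordinates of a minimal plane structure. -/
theorem MinP2.proj {x : Fin (N + 1) → L} {S : Coord L} {q : L} {a : ℕ} (h : MinP2 x S q a)
    {A : Matrix (Fin 3) (Fin 3) ℂ} (hA : A.det ≠ 0) {Q : Coord L}
    (hx : Q.x = lin S (A 1) / lin S (A 0)) (hy : Q.y = lin S (A 2) / lin S (A 0)) :
    MinP2 x Q (q * (lin S (A 0) ^ a)⁻¹) a := by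
  obtain ⟨⟨F, hF, hS⟩, hLB⟩ := h
  refine ⟨?_, hLB⟩
  have h0 := H98.lin_ne S (H98.row_ne hA 0)
  have hd := H98.lin_div S (A' := 1) hA hx hy
  have e0 : lin S ((1 : Matrix (Fin 3) (Fin 3) ℂ) 0) = 1 := by
    simp [lin]
  have e1 : lin S ((1 : Matrix (Fin 3) (Fin 3) ℂ) 1) = S.x := by
    simp [lin]
  have e2 : lin S ((1 : Matrix (Fin 3) (Fin 3) ℂ) 2) = S.y := by
    simp [lin]
  have d0 := hd 0
  have d1 := hd 1
  have d2 := hd 2
  rw [e0] at d0
  rw [e1] at d1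
  rw [e2] at d2
  refine ⟨fun i => prj a (((1 : Matrix (Fin 3) (Fin 3) ℂ) * A⁻¹) 0)
    (((1 : Matrix (Fin 3) (Fin 3) ℂ) * A⁻¹) 1) (((1 : Matrix (Fin 3) (Fin 3) ℂ) * A⁻¹) 2) (F i),
    ⟨mul_ne_zero hF.1 (inv_ne_zero (pow_ne_zero _ h0)), fun i => ?_⟩, fun i => ?_⟩
  · rw [ev_prj _ _ _ (hS i) h0 (x := S.x) (y := S.y), hF.2 i]
    · ring
    · rw [ev_afp, d0]
    · rw [ev_afp, d1]
    · rw [ev_afp, d2]
  · exact prj_mem _ _ _ (hS i)

/-- **LOC.** -/
theorem H62.st_LOC : H2.ST_LOC := by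
  intro L _ _ N ω x hx P q a hP k T hTS hMu j
  have ha : 0 < a := hP.1.pos hx
  have hb := br_ne ω P
  have hq : q ≠ 0 := by
    obtain ⟨F, hF, -⟩ := hP.1
    exact hF.1
  induction j with
  | zero =>
    rintro - R ⟨A, Q, hA, rfl, hQx, hQy⟩
    rw [hTS] at hQx hQy
    have h1 := hP.proj hA hQx hQy
    obtain ⟨F, hF, hS⟩ := id h1.1
    have h0 := H98.lin_ne P (H98.row_ne hA 0)
    refine ⟨Q, _, F, A.det ^ a, rfl, hF, minP2_lnorm hx h1 hF, ?_, pow_ne_zero _ hA, ?_⟩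
    · intro m hm
      obtain ⟨i, e, he, h2⟩ := h1.mult ha hF
      have := hm.1 i e he
      omega
    · have h2 : (lin P (A 0) ^ 3) ^ a = (lin P (A 0) ^ a) ^ 3 := by
        rw [← pow_mul, ← pow_mul, Nat.mul_comm]
      have h3 : (lin P (A 0) ^ a) ^ 3 ≠ 0 := pow_ne_zero _ (pow_ne_zero _ h0)
      rw [hQx, hQy, br_proj ω P A h0, map_pow, div_pow, h2, mul_pow, mul_pow, inv_pow]
      field_simp
  | succ j ih =>
    intro hj R hR
    have hj' : j < k := hj
    simp only [surf, dif_pos hj'] at hR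
    rcases hR with hR | hR
    · exact ih hj'.le R hR.1
    · have h1 : T.R ⟨j, hj'⟩ ∈ surf T.S T.R j := T.valid ⟨j, hj'⟩
      obtain ⟨Q, q0, F, c, hQ, hF, hL, hm, hc, hβ⟩ := ih hj'.le _ h1
      obtain ⟨Q', q', F', m, hQ', hF', hL', hm', h3⟩ := hMu ⟨j, hj'⟩
      have h4 : MOrd F m := (H62.st_LOCU L N x Q' Q q' q0 F' F (hQ'.trans hQ.symm) hF' hL' hF
        hL).1 m hm'
      have h5 : Next Q.loc R := by rw [hQ]; exact hR
      obtain ⟨o, rfl⟩ := LCY.next_iff.1 h5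
      have htne := (Q.st o).x_ne
      obtain ⟨c', hc', hbr⟩ : ∃ c' : ℂ, c' ≠ 0 ∧ ω.br (Q.st o).x (Q.st o).y =
          algebraMap ℂ L c' * ((Q.st o).x⁻¹ * ω.br Q.x Q.y) := by
        rcases br_st ω Q o with h6 | h6
        · exact ⟨1, one_ne_zero, by rw [h6, map_one, one_mul]⟩
        · exact ⟨-1, neg_ne_zero.2 one_ne_zero, by rw [h6, map_neg, map_one, neg_one_mul]⟩
      refine ⟨Q.st o, _, stF o m F, c' ^ a * c, rfl, pol_st hF h4.1 o, lnorm_step hL h4 o,
        ?_, mul_ne_zero (pow_ne_zero _ hc') hc, ?_⟩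
      · intro m1 hm1
        have := mord_le h4 hm1
        omega
      · rw [hbr, mul_pow, mul_pow, hβ, map_mul, map_pow]
        have h6 : (Q.st o).x ^ a = ((Q.st o).x ^ m) ^ 3 := by
          rw [← pow_mul]
          congr 1
          omega
        rw [inv_pow, h6]
        ring

end

end LCY
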