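import Pool.Agent.Helper62.LCY.N5
import Pool.Agent.Helper62.LCY.B2
import Pool.Agent.Helper98.LCY.LocE
import Pool.Agent.Helper81.LCY.RowsA
import Pool.Agent.Helper2.LCY.Init0
import Pool.Agent.Helper2.LCY.E4

/-!
MP_f7e214_ag, local layer, part 6: contracted curves outside the divisor of poles (row CONTR);
the statements `H2.ST_LOCU` and `H2.ST_CON`.
-/

open Polynomial

namespace LCY

noncomputable section

variable {L : Type} [Field L] [Algebra ℂ L] {N : ℕ}

open H62

/-- The multiplicity and the factor of a local presentation are intrinsic. -/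
theorem H62.st_LOCU : H2.ST_LOCU := by
  intro L _ _ N x Q Q' q q' F F' hl hF hL hF' hL'
  refine ⟨fun m hm => ?_, quot_mem hl hF hF' hL', ?_⟩
  · obtain ⟨m', hm'⟩ := exists_mord hL'
    have h1 : IsMult x Q.loc m := IsMult.of_pol hF hL hm
    have h2 : IsMult x Q.loc m' := hl ▸ IsMult.of_pol hF' hL' hm'
    rw [h1.unique h2]
    exact hm'
  · rw [hl]
    exact quot_mem hl.symm hF' hF hL

namespace H62

theorem through_not_cen {P : Coord L} {v : DVal L} (h : Through P.loc v) : ¬ Cen P v := by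
  intro hc
  obtain ⟨z, hz, hinv, h0, hv⟩ := h.2
  have h1 : Centred P.loc v := H98.centred_iff.2 hc
  have := h1.2 z hz h0 hinv
  omega

theorem nn_pos_zero {P : Coord L} {v : DVal L} (h : H98.Nn P.loc v) {z : L} (hz : P.Mx z) {c : ℂ}
    (hc : v.Pos (z - algebraMap ℂ L c)) : c = 0 := by
  by_contra h0
  have h1 : P.Mx ((z - algebraMap ℂ L c) - algebraMap ℂ L (-c)) := by
    rw [map_neg, sub_neg_eq_add, sub_add_cancel]; exact hz
  obtain ⟨h2, h3, h4⟩ := H98.unit_of_mx (neg_ne_zero.2 h0) h1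
  have h5 := H98.nn_unit h h2 h3 h4
  have h6 := hc.resolve_left h2
  omega

theorem through_free {P : Coord L} {v : DVal L} (h : Through P.loc v) :
    ¬ ((∃ c : ℂ, v.Pos (P.x - algebraMap ℂ L c)) ∧
      ∃ c : ℂ, v.Pos (P.y - algebraMap ℂ L c)) := by
  rintro ⟨⟨c, hc⟩, ⟨d, hd⟩⟩
  have h1 := nn_pos_zero h.1 (H98.mx_x P) hc
  have h2 := nn_pos_zero h.1 (H98.mx_y P) hd
  subst h1 h2
  rw [map_zero, sub_zero] at hc hd
  exact through_not_cen h ⟨hc.resolve_left P.x_ne, hd.resolve_left P.y_ne⟩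

theorem through_int {P : Coord L} {v : DVal L} (h : Through P.loc v) : v.Int P.x ∧ v.Int P.y :=
  ⟨h.1 _ (x_mem P), h.1 _ (y_mem P)⟩

/-- The 2-form at a curve through the point. -/
theorem through_br {ω : Bracket L} {P : Coord L} {v : DVal L} {k : ℤ} (hk : WtProp ω v k)
    (h : Through P.loc v) : v.v (ω.br P.x P.y) = - k := by
  have := hk.b2 P (through_int h).1 (through_int h).2 (through_free h)
  omega

/-- The presentation does not vanish at a curve through the point. -/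
theorem through_lnorm {x : Fin (N + 1) → L} {P : Coord L} {q : L} {F : Fin (N + 1) → ℂ[X][X]}
    (hF : Pol x P q F) (hL : LNorm F) {v : DVal L} (h : Through P.loc v) {i : Fin (N + 1)}
    (hi : XMin x v i) : v.v (q * x i) = 0 := by
  have hqi : q * x i ≠ 0 := mul_ne_zero hF.1 hi.1
  have h0 : v.Int (q * x i) := by
    rw [← hF.2 i]; exact h.1 _ (P.ev_mem_loc _)
  have h0' := h0.resolve_left hqi
  by_contra hne
  have hpos : v.Pos (q * x i) := Or.inr (by omega)
  have h1 : ∀ j, v.Pos (ev P.x P.y (F j)) := by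
    intro j
    rw [hF.2 j]
    have h2 : q * x j = (q * x i) * (x j / x i) := by
      have := hi.1
      field_simp
    rw [h2]
    exact v.pos_mul_int hpos (hi.2 j)
  have h2 : ∀ a ∈ Ideal.span (Set.range F), v.Pos (ev P.x P.y a) := by
    intro a ha
    refine Submodule.span_induction (p := fun a _ => v.Pos (ev P.x P.y a)) ?_ ?_ ?_ ?_ ha
    · rintro _ ⟨j, rfl⟩
      exact h1 j
    · left; rw [map_zero]
    · intro u w _ _ hu hw
      rw [map_add]
      exact v.pos_add hu hw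
    · intro u w _ hw
      rw [smul_eq_mul, map_mul, mul_comm]
      exact v.pos_mul_int hw (h.1 _ (P.ev_mem_loc u))
  have h3 : ∀ (t r : ℂ[X][X]) (k : ℕ), cf r (0, 0) ≠ 0 → t ≠ 0 →
      t ^ k * r ∈ Ideal.span (Set.range F) → 0 < v.v (ev P.x P.y t) := by
    intro t r k hr ht hm
    have ht' := P.ne ht
    have hr' := P.ne (ne_of_cf hr)
    have h4 := h2 _ hm
    rw [map_mul, map_pow] at h4
    have h5 := h4.resolve_left (mul_ne_zero (pow_ne_zero _ ht') hr')
    have h6 : v.v (ev P.x P.y r) = 0 := by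
      refine H98.nn_unit h.1 hr' (P.ev_mem_loc r) ?_
      exact ⟨1, r, hr, by rw [map_one, one_div]⟩
    rw [v.map_mul _ _ (pow_ne_zero _ ht') hr', v.map_pow ht', h6, add_zero] at h5
    by_contra hcon
    push Not at hcon
    have : (k : ℤ) * v.v (ev P.x P.y t) ≤ 0 :=
      mul_nonpos_of_nonneg_of_nonpos (by positivity) hcon
    omega
  obtain ⟨⟨k, r, hr, hk⟩, -⟩ := id hL
  obtain ⟨l, s, hs, hl⟩ := ypart hL
  have e1 := h3 (C X) r k hr (by rw [Ne, C_eq_zero]; exact X_ne_zero) hk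
  have e2 := h3 X s l hs X_ne_zero hl
  rw [ev_CX] at e1
  rw [ev_X] at e2
  exact through_not_cen h ⟨e1, e2⟩

/-- At a point that is not a base point a component of the presentation is minimal at every
valuation that is nonnegative on the local ring. -/
theorem xmin_of_unit {x : Fin (N + 1) → L} {P : Coord L} {q : L} {F : Fin (N + 1) → ℂ[X][X]}
    (hF : Pol x P q F) {i : Fin (N + 1)} (hi : cf (F i) (0, 0) ≠ 0) {v : DVal L}
    (h : H98.Nn P.loc v) : XMin x v i ∧ v.v (q * x i) = 0 := by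
  have h1 := P.ne (ne_of_cf hi)
  have hxi : x i ≠ 0 := by
    intro h0
    rw [hF.2 i, h0, mul_zero] at h1
    exact h1 rfl
  refine ⟨⟨hxi, fun j => ?_⟩, ?_⟩
  · refine h _ ⟨F j, F i, hi, ?_⟩
    rw [hF.2 i, hF.2 j, mul_div_mul_left _ _ hF.1]
  · rw [← hF.2 i]
    refine H98.nn_unit h h1 (P.ev_mem_loc _) ?_
    exact ⟨1, F i, hi, by rw [map_one, one_div]⟩

/-- The hypotheses about the linear system, the 2-form and the comparison function `h`. -/
structure ConHyp (ω : Bracket L) (x : Fin (N + 1) → L) (a : ℕ) (h : L) : Prop where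
  h2 : ∀ v k, ω.Wt v k → ¬ Contracted x v → k ≤ 0
  ex : ∀ v, ∃ k, ω.Wt v k
  nr : NR x
  wp : ∀ v k, ω.Wt v k → WtProp ω v k
  h0 : h ≠ 0
  pos : 0 < a
  theta : ∀ v k i, ω.Wt v k → XMin x v i → 3 * v.v (x i) ≤ a * k + v.v h

variable {ω : Bracket L} {x : Fin (N + 1) → L} {a : ℕ} {h : L}

theorem ConHyp.quot (H : ConHyp ω x a h) {i : Fin (N + 1)} (hi : x i ≠ 0) :
    h / x i ^ 3 ≠ 0 ∧ ∀ v : DVal L, v.v (h / x i ^ 3) = v.v h - 3 * v.v (x i) := by
  refine ⟨div_ne_zero H.h0 (pow_ne_zero _ hi), fun v => ?_⟩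
  rw [v.map_div H.h0 (pow_ne_zero _ hi), v.map_pow hi]
  push_cast; ring

theorem ConHyp.int (H : ConHyp ω x a h) {i : Fin (N + 1)} (hi : x i ≠ 0) {v : DVal L}
    (hv : XMin x v i) : v.Int (h / x i ^ 3) ∧
      (Contracted x v → ∃ c : ℂ, v.Pos (h / x i ^ 3 - algebraMap ℂ L c)) := by
  refine H.nr i _ (fun w hw hwi => Or.inr ?_) v hv
  obtain ⟨k, hk⟩ := H.ex w
  have h1 := H.h2 w k hk hw
  have h2 := H.theta w k i hk hwi
  have h3 : (a : ℤ) * k ≤ 0 := mul_nonpos_of_nonneg_of_nonpos (by positivity) h1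
  rw [(H.quot hi).2]
  linarith

/-- At a point that is not a base point, on a contracted curve with equality: `h` is equivalent
to the cube of the system. -/
theorem ConHyp.unit_at (H : ConHyp ω x a h) {P : Coord L} {q : L} {F : Fin (N + 1) → ℂ[X][X]}
    (hF : Pol x P q F) {i : Fin (N + 1)} (hi : cf (F i) (0, 0) ≠ 0) {w : DVal L}
    (hw : Contracted x w) (hT : Through P.loc w) (heq : ∀ j, XMin x w j → w.v h = 3 * w.v (x j))
    {v : DVal L} (hv : H98.Nn P.loc v) : v.v h = 3 * v.v (x i) := by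
  obtain ⟨hwi, -⟩ := xmin_of_unit hF hi hT.1
  obtain ⟨hg0, hg⟩ := H.quot hwi.1
  have hint := fun v' (hv' : XMin x v' i) => H.int hwi.1 hv'
  obtain ⟨g, hgdef⟩ : ∃ g, g = h / x i ^ 3 := ⟨_, rfl⟩
  rw [← hgdef] at hg0 hg
  simp only [← hgdef] at hint
  have hgm : g ∈ P.loc := by
    rw [H81.st_A9 L P g]
    intro v' hv'
    obtain ⟨h1, -⟩ := xmin_of_unit hF hi hv'.1
    exact (hint _ h1).1
  obtain ⟨c, hc⟩ := (hint _ hwi).2 hw
  have hwg : w.v g = 0 := by
    rw [hg, heq i hwi]; ring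
  have hc0 : c ≠ 0 := by
    rintro rfl
    rw [map_zero, sub_zero] at hc
    have := hc.resolve_left hg0
    omega
  obtain ⟨d, hd⟩ := H98.exists_residue hgm
  have hdc : d = c := by
    by_contra hne
    have h1 : P.Mx ((g - algebraMap ℂ L c) - algebraMap ℂ L (d - c)) := by
      rw [map_sub, show g - algebraMap ℂ L c - (algebraMap ℂ L d - algebraMap ℂ L c) =
        g - algebraMap ℂ L d by ring]
      exact hd
    obtain ⟨h2, h3, h4⟩ := H98.unit_of_mx (sub_ne_zero.2 hne) h1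
    have h5 := H98.nn_unit hT.1 h2 h3 h4
    have h6 := hc.resolve_left h2
    omega
  subst hdc
  obtain ⟨h2, h3, h4⟩ := H98.unit_of_mx hc0 hd
  have h5 := H98.nn_unit hv h2 h3 h4
  rw [hg] at h5
  omega

theorem ord_nn (P : Coord L) (o : Option ℂ) : H98.Nn (P.st o).loc P.ord := by
  have h1 : cf (C X : ℂ[X][X]) (0, 0) = 0 := by simp [cf]
  have h2 : Through (P.st o).loc ((P.st o).pval (C X) prime_CX) :=
    (H81.st_A6 L _ _).2 ⟨C X, isAdic_pval _ _, h1⟩
  intro z hz
  rcases h2.1 z hz with h3 | h3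
  · exact Or.inl h3
  · by_cases h0 : z = 0
    · exact Or.inl h0
    · right
      rw [P.ord_same o z h0]
      exact h3

theorem ord_st_x (P : Coord L) (o : Option ℂ) : P.ord.v (P.st o).x = 1 := by
  cases o with
  | some c => rw [P.st_some_x, ord_x]
  | none => rw [P.st_none_x, ord_y]

/-- The value of a power of the 2-form in the new coordinates. -/
theorem br_st_sign (ω : Bracket L) (P : Coord L) (o : Option ℂ) :
    ∃ e : L, (e = 1 ∨ e = -1) ∧
      ω.br (P.st o).x (P.st o).y = e * ((P.st o).x⁻¹ * ω.br P.x P.y) := by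
  rcases br_st ω P o with h1 | h1
  · exact ⟨1, Or.inl rfl, by rw [h1, one_mul]⟩
  · exact ⟨-1, Or.inr rfl, by rw [h1]; ring⟩

/-- A base point on a contracted curve outside the divisor of poles has multiplicity `a / 3`. -/
theorem ConHyp.mult (H : ConHyp ω x a h) (h13 : ST_A13') {w : DVal L} (hw : Contracted x w)
    (heq : ∀ j, XMin x w j → w.v h = 3 * w.v (x j)) :
    ∀ (P : Coord L) (F : Fin (N + 1) → ℂ[X][X]), LNorm F → IsB F →
      ∀ (q : L) (m : ℕ) (u : L), Pol x P q F → MOrd F m → 3 * m ≤ a → u ∈ P.loc → u ≠ 0 →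
        ω.br P.x P.y ^ a * u = h * q ^ 3 → ω.br P.x P.y ∈ P.loc → Through P.loc w →
        3 * m = a := by
  refine base_induction (fun P F => ∀ (q : L) (m : ℕ) (u : L), Pol x P q F → MOrd F m →
    3 * m ≤ a → u ∈ P.loc → u ≠ 0 → ω.br P.x P.y ^ a * u = h * q ^ 3 → ω.br P.x P.y ∈ P.loc →
    Through P.loc w → 3 * m = a) ?_
  intro P F m hF hm h1 ih q m' u hq hm' h3 hu hu0 hβ hβm hT
  obtain rfl : m' = m := mord_unique hm' hm
  have hb := br_ne ω P
  -- the 2-form vanishes at the point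
  have hβord : 1 ≤ P.ord.v (ω.br P.x P.y) := by
    rcases loc_cases hβm with h4 | ⟨-, -, h4⟩
    · have := h4.1.resolve_left hb
      omega
    · exfalso
      obtain ⟨f, g, hg, h5⟩ := id hβm
      refine base_on_D ω x H.h2 hq hF ((isB_iff hm).2 h1) (f := f) (g := g) ?_ hg h5
      intro hf
      have h6 : P.Mx (ω.br P.x P.y) := ⟨f, g, hf, hg, h5⟩
      exact H98.mx_not_inv h6 hb h4
  obtain ⟨R', hR', hT'⟩ := h13 L P w hT
  obtain ⟨o, rfl⟩ := LCY.next_iff.1 hR'
  have hq1 := pol_st hq hm.1 o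
  have hF1 := lnorm_step hF hm o
  have htne := (P.st o).x_ne
  have htm : (P.st o).x ∈ (P.st o).loc := x_mem _
  by_cases hB : IsB (stF o m' F)
  · obtain ⟨m1, hm1⟩ := exists_mord hF1
    have h4 := mord_le hm hm1
    obtain ⟨e, he, hbe⟩ := br_st_sign ω P o
    have hee : e ^ a * e ^ a = 1 := by
      rcases he with rfl | rfl
      · simp
      · rw [← mul_pow]; simp
    have hem : e ^ a ∈ (P.st o).loc := by
      refine Subalgebra.pow_mem _ ?_ _
      rcases he with rfl | rfl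
      · exact Subalgebra.one_mem _
      · exact Subalgebra.neg_mem _ (Subalgebra.one_mem _)
    have hbm1 : ω.br (P.st o).x (P.st o).y ∈ (P.st o).loc := by
      have h5 := st_div_mem o (m := 1) hβm (Or.inr (by exact_mod_cast hβord))
      rw [pow_one] at h5
      have h6 : e ∈ (P.st o).loc := by
        rcases he with rfl | rfl
        · exact Subalgebra.one_mem _
        · exact Subalgebra.neg_mem _ (Subalgebra.one_mem _)
      rw [hbe, show (P.st o).x⁻¹ * ω.br P.x P.y = ω.br P.x P.y / (P.st o).x by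
        rw [div_eq_mul_inv, mul_comm]]
      exact Subalgebra.mul_mem _ h6 h5
    have h5 := ih o hB _ m1 (e ^ a * u * (P.st o).x ^ (a - 3 * m')) hq1 hm1 (by omega)
      (Subalgebra.mul_mem _ (Subalgebra.mul_mem _ hem (st_loc_mono o hu))
        (Subalgebra.pow_mem _ htm _)) ?_ ?_ hbm1 hT'
    · omega
    · refine mul_ne_zero (mul_ne_zero ?_ hu0) (pow_ne_zero _ htne)
      intro h0
      rw [h0, zero_mul] at hee
      exact zero_ne_one hee
    · rw [hbe]
      have h6 : (P.st o).x ^ a = (P.st o).x ^ (a - 3 * m') * ((P.st o).x ^ m') ^ 3 := by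
        rw [← pow_mul, ← pow_add]
        congr 1
        omega
      have h7 : (P.st o).x ^ a ≠ 0 := pow_ne_zero _ htne
      have h8 : ((P.st o).x ^ m') ^ 3 ≠ 0 := pow_ne_zero _ (pow_ne_zero _ htne)
      have h9 : (e * ((P.st o).x⁻¹ * ω.br P.x P.y)) ^ a *
          (e ^ a * u * (P.st o).x ^ (a - 3 * m')) =
          (e ^ a * e ^ a) * (ω.br P.x P.y ^ a * u) *
            ((P.st o).x ^ (a - 3 * m') / (P.st o).x ^ a) := by
        rw [mul_pow, mul_pow, inv_pow]
        field_simp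
      rw [h9, hee, one_mul, hβ, h6]
      field_simp
  · -- not a base point
    unfold IsB at hB
    push Not at hB
    obtain ⟨i, hi⟩ := hB
    have h4 : H98.Nn (P.st o).loc P.ord := ord_nn P o
    have h5 := H.unit_at hq1 hi hw hT' heq h4
    obtain ⟨h6, h7⟩ := xmin_of_unit hq1 hi h4
    have hk := wt_ord ω P
    have h8 := H.theta P.ord _ i hk h6
    rw [h5] at h8
    have h9 : (0 : ℤ) ≤ a * (1 - P.ord.v (ω.br P.x P.y)) := by linarith
    have h10 : (0 : ℤ) < a := by exact_mod_cast H.pos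
    have h11 : 0 ≤ 1 - P.ord.v (ω.br P.x P.y) := by
      by_contra hcon
      push Not at hcon
      have := mul_neg_of_pos_of_neg h10 hcon
      linarith
    have h12 : P.ord.v (ω.br P.x P.y) = 1 := by omega
    have h13' : P.ord.v (ω.br P.x P.y ^ a * u) = P.ord.v (h * q ^ 3) := by rw [hβ]
    rw [P.ord.map_mul _ _ (pow_ne_zero _ hb) hu0, P.ord.map_pow hb, h12,
      P.ord.map_mul _ _ H.h0 (pow_ne_zero _ hq.1), P.ord.map_pow hq.1, h5] at h13'
    have h14 : P.ord.v (q * ((P.st o).x ^ m')⁻¹ * x i) =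
        P.ord.v q - m' + P.ord.v (x i) := by
      rw [P.ord.map_mul _ _ (mul_ne_zero hq.1 (inv_ne_zero (pow_ne_zero _ htne))) h6.1,
        P.ord.map_mul _ _ hq.1 (inv_ne_zero (pow_ne_zero _ htne)),
        P.ord.map_inv (pow_ne_zero _ htne), P.ord.map_pow htne, ord_st_x]
      ring
    rw [h14] at h7
    have h15 := (loc_int hu).resolve_left hu0
    have h16 : (a : ℤ) ≤ 3 * m' := by push_cast at h13'; linarith
    have h17 : a ≤ 3 * m' := by exact_mod_cast h16
    omega

end H62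

/-- **CON.** -/
theorem H62.st_CON_of (h13 : ST_A13') : H2.ST_CON := by
  intro L _ _ N ω x hx H1 H2' hW hWP hNR a h ha h0 hth R hD hMu v w hv hw hkv hcv hkw
  obtain ⟨Q, q, F, c, rfl, hF, hL, hm, hc, hβ⟩ := hD
  have H : ConHyp ω x a h :=
    ⟨H2', hW, hNR, hWP, h0, ha, fun v' k i hk hi => hth v' k _ hk ⟨fun j hj => hi.min j hj,
      i, hi.1, rfl⟩⟩
  have hb := br_ne ω Q
  have hcne : algebraMap ℂ L c ≠ 0 := by rw [Ne, map_eq_zero]; exact hc
  have hne : ∃ i, x i ≠ 0 := by
    obtain ⟨i, hi⟩ := hL.2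
    refine ⟨i, fun h1 => ?_⟩
    have h2 := hF.2 i
    rw [h1, mul_zero] at h2
    have h3 : F i = 0 := Q.inj _ h2
    rw [h3] at hi
    exact hi (r0_of_dvd (dvd_zero _))
  have hval : ∀ v' : DVal L, (a : ℤ) * v'.v (ω.br Q.x Q.y) = v'.v h + 3 * v'.v q := by
    intro v'
    have h1 : v'.v (ω.br Q.x Q.y ^ a) = v'.v (algebraMap ℂ L c * h * q ^ 3) := by rw [hβ]
    rw [v'.map_pow hb, v'.map_mul _ _ (mul_ne_zero hcne h0) (pow_ne_zero _ hF.1),
      v'.map_mul _ _ hcne h0, v'.map_const _ hc, v'.map_pow hF.1] at h1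
    push_cast at h1
    linarith
  have hqx : ∀ (v' : DVal L) (i : Fin (N + 1)), x i ≠ 0 → v'.v (q * x i) = v'.v q + v'.v (x i) :=
    fun v' i hi => v'.map_mul _ _ hF.1 hi
  -- the 2-form is regular at the point
  have hk0 : ∀ v' : DVal L, Through Q.loc v' → ∀ k, ω.Wt v' k → k ≤ 0 := by
    intro v' hv' k hk
    obtain ⟨i, hi⟩ := exists_xmin hne v'
    have h1 := (H.int hi.1 hi).1.resolve_left (H.quot hi.1).1
    rw [(H.quot hi.1).2] at h1
    have h2 := through_br (hWP v' k hk) hv'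
    have h3 := through_lnorm hF hL hv' hi
    rw [hqx _ _ hi.1] at h3
    have h4 := hval v'
    rw [h2] at h4
    have h5 : (a : ℤ) * k ≤ 0 := by
      have : (a : ℤ) * (-k) = -(a * k) := by ring
      rw [this] at h4
      linarith
    by_contra hcon
    push Not at hcon
    have : (0 : ℤ) < a * k := mul_pos (by exact_mod_cast ha) hcon
    linarith
  have hβm : ω.br Q.x Q.y ∈ Q.loc := by
    rw [H81.st_A9 L Q _]
    intro v' hv'
    obtain ⟨k, hk⟩ := hW v'
    right
    rw [through_br (hWP v' k hk) hv']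
    have := hk0 v' hv' k hk
    omega
  have heq : ∀ j, XMin x v j → v.v h = 3 * v.v (x j) := by
    intro j hj
    have h1 := through_lnorm hF hL hv hj
    rw [hqx _ _ hj.1] at h1
    have h2 := hval v
    rw [through_br (hWP v 0 hkv) hv] at h2
    simp only [neg_zero, mul_zero] at h2
    linarith
  by_cases hB : IsB F
  · obtain ⟨m, hmo⟩ := exists_mord hL
    refine hMu ⟨Q, q, F, m, rfl, hF, hL, hmo, ?_⟩
    refine H.mult h13 hcv heq Q F hL hB q m (algebraMap ℂ L c)⁻¹ hF hmo (hm m hmo) ?_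
      (inv_ne_zero hcne) ?_ hβm hv
    · rw [← map_inv₀]
      exact Subalgebra.algebraMap_mem _ _
    · rw [hβ]
      field_simp
  · unfold IsB at hB
    push Not at hB
    obtain ⟨i, hi⟩ := hB
    have h1 := H.unit_at hF hi hcv hv heq hw.1
    obtain ⟨h2, h3⟩ := xmin_of_unit hF hi hw.1
    rw [hqx _ _ h2.1] at h3
    have h4 := hval w
    rw [through_br (hWP w (-1) hkw) hw, h1] at h4
    have h5 : (a : ℤ) = 0 := by linarith
    have : a = 0 := by exact_mod_cast h5
    omega

theorem H62.st_CON : H2.ST_CON := H62.st_CON_of (H98.a13' H81.st_A6)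

end

end LCY
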