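import Pool.Agent.Helper62.LCY.N4
import Pool.Agent.Helper11.LCY.State

/-!
MP_f7e214_ag, bridge to the language of helper11's State.lean: ordn, IsOrd, IsAdic, IsInf.
-/

open Polynomial

namespace LCY

noncomputable section

variable {L : Type} [Field L] [Algebra ℂ L] {N : ℕ}

namespace H62

theorem ordn_eq {m : ℕ} {f : ℂ[X][X]} (h : OE m f) : ordn f = m := by
  obtain ⟨h1, e, he, h2⟩ := h
  unfold ordn
  apply le_antisymm
  · exact Nat.sInf_le ⟨e, he, h2⟩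
  · refine le_csInf ⟨m, e, he, h2⟩ ?_
    rintro n ⟨e', he', rfl⟩
    exact h1 e' he'

theorem oe_ordn {f : ℂ[X][X]} (hf : f ≠ 0) : OE (ordn f) f := by
  obtain ⟨m, hm⟩ := exists_OE hf
  rw [ordn_eq hm]
  exact hm

theorem oe_iff {m : ℕ} {f : ℂ[X][X]} (hf : f ≠ 0) : OE m f ↔ ordn f = m :=
  ⟨ordn_eq, fun h => h ▸ oe_ordn hf⟩

theorem ordn_mul {f g : ℂ[X][X]} (hf : f ≠ 0) (hg : g ≠ 0) :
    ordn (f * g) = ordn f + ordn g := ordn_eq ((oe_ordn hf).mul (oe_ordn hg))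

end H62

open H62

theorem isAdic_pval (P : Coord L) {g : ℂ[X][X]} (hg : Prime g) : IsAdic P g (P.pval g hg) := by
  refine ⟨hg.irreducible, fun n f hf => ?_⟩
  have h0 : f ≠ 0 := by
    rintro rfl
    exact hf (dvd_zero _)
  rw [P.pval_ev hg (mul_ne_zero (pow_ne_zero _ hg.ne_zero) h0),
    mult_mul hg (pow_ne_zero _ hg.ne_zero) h0, mult_zero hf]
  have : multiplicity g (g ^ n) = n := multiplicity_pow_self hg.ne_zero hg.not_isUnit n
  rw [this]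
  simp

theorem isOrd_ord (P : Coord L) : IsOrd P.loc P.ord :=
  ⟨P, rfl, fun _ hf => P.ord_ev (oe_ordn hf)⟩

namespace H62

/-- Homogenisation in the chart `(1 / x, y / x)`. -/
def hmg (d : ℕ) (f : ℂ[X][X]) : ℂ[X][X] :=
  ∑ e ∈ bs f, C (C (cf f e)) * (C X ^ (d - (e.1 + e.2)) * X ^ e.2)

theorem ev_hmg {d : ℕ} {f : ℂ[X][X]} (h : ∀ e, cf f e ≠ 0 → e.1 + e.2 ≤ d) {x y : L}
    (hx : x ≠ 0) : ev x y f = x ^ d * ev x⁻¹ (y / x) (hmg d f) := by
  unfold hmg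
  rw [map_sum, ev_eq_sum, Finset.mul_sum]
  refine Finset.sum_congr rfl fun e he => ?_
  have h1 := h e (mem_bs.1 he)
  rw [map_mul, map_mul, map_pow, map_pow, ev_CC, ev_CX, ev_X]
  have h2 : x ^ d = x ^ e.1 * x ^ e.2 * x ^ (d - (e.1 + e.2)) := by
    rw [← pow_add, ← pow_add]
    congr 1
    omega
  rw [h2, div_pow, inv_pow]
  have h3 : x ^ e.2 ≠ 0 := pow_ne_zero _ hx
  have h4 : x ^ (d - (e.1 + e.2)) ≠ 0 := pow_ne_zero _ hx
  field_simp

theorem r0_hmg (d : ℕ) {f : ℂ[X][X]} (h : ∀ e, cf f e ≠ 0 → e.1 + e.2 ≤ d) :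
    r0 (hmg d f) = lp d f := by
  unfold hmg lp
  rw [r0_sum, Finset.sum_filter]
  refine Finset.sum_congr rfl fun e he => ?_
  have h1 := h e (mem_bs.1 he)
  rw [r0_mul, r0_mul, r0_pow, r0_pow, r0_CC, r0_CX, r0_X]
  split_ifs with h2
  · rw [show d - (e.1 + e.2) = 0 by omega, pow_zero, one_mul]
  · rw [zero_pow (by omega), zero_mul, mul_zero]

theorem le_tdeg {f : ℂ[X][X]} {e : ℕ × ℕ} (he : cf f e ≠ 0) : e.1 + e.2 ≤ tdeg f :=
  Finset.le_sup (f := fun e : ℕ × ℕ => e.1 + e.2) (mem_bs.2 he)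

theorem exists_tdeg {f : ℂ[X][X]} (hf : f ≠ 0) : ∃ e, cf f e ≠ 0 ∧ e.1 + e.2 = tdeg f := by
  obtain ⟨e, he⟩ := exists_cf_ne hf
  obtain ⟨e', he', h⟩ := Finset.exists_mem_eq_sup (bs f) ⟨e, mem_bs.2 he⟩
    (fun e : ℕ × ℕ => e.1 + e.2)
  exact ⟨e', mem_bs.1 he', h.symm⟩

end H62

theorem isInf_inf (S : Coord L) : IsInf S S.inf := by
  intro f hf
  have hx := S.x_ne
  have h1 : ∀ e, cf f e ≠ 0 → e.1 + e.2 ≤ tdeg f := fun e he => le_tdeg he
  obtain ⟨e, he, h2⟩ := exists_tdeg hf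
  have h3 : lp (tdeg f) f ≠ 0 := by
    intro h0
    have h3 := lp_coeff (tdeg f) f e.2
    rw [h0, coeff_zero, if_pos (by omega)] at h3
    apply he
    rw [h3]
    congr 1
    exact Prod.ext (by dsimp only; omega) rfl
  have h4 : hmg (tdeg f) f ≠ 0 := by
    intro h0
    have h5 := r0_hmg (tdeg f) h1
    rw [h0, r0_of_dvd (dvd_zero _)] at h5
    exact h3 h5.symm
  have h5 : ¬ (C X : ℂ[X][X]) ∣ hmg (tdeg f) f := by
    intro hd
    have h6 := r0_of_dvd hd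
    rw [r0_hmg _ h1] at h6
    exact h3 h6
  have h6 : ev S.x S.y f = S.x ^ tdeg f * ev S.cinf.x S.cinf.y (hmg (tdeg f) f) := by
    rw [S.cinf_x, S.cinf_y]
    exact ev_hmg h1 hx
  have h7 : S.inf.v S.x = -1 := by
    have h8 : S.x = (S.cinf.x)⁻¹ := by rw [S.cinf_x, inv_inv]
    rw [h8, DVal.map_inv _ S.cinf.x_ne]
    have h9 := S.cinf.pval_ev prime_CX (f := C X) CX_ne
    rw [ev_CX, multiplicity_self] at h9
    unfold Coord.inf
    rw [h9]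
    rfl
  rw [h6, DVal.map_mul _ _ _ (pow_ne_zero _ hx) (S.cinf.ne h4), DVal.map_pow _ hx, h7]
  unfold Coord.inf
  rw [S.cinf.pval_ev prime_CX h4, mult_zero h5]
  simp

end

end LCY
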