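import Pool.Agent.Helper51.LCY.P2

/-!
MP_f7e214_ag, local layer, part 1: the substitutions of a blow-up, the order at the origin,
leading forms.
-/

open Polynomial

namespace LCY

namespace H62

noncomputable section

variable {L : Type} [Field L] [Algebra ℂ L]

/-- All exponents of `f` have total degree at least `m`. -/
def OG (m : ℕ) (f : ℂ[X][X]) : Prop := ∀ e, cf f e ≠ 0 → m ≤ e.1 + e.2

/-- The order of `f` at the origin is `m`. -/
def OE (m : ℕ) (f : ℂ[X][X]) : Prop := OG m f ∧ ∃ e, cf f e ≠ 0 ∧ e.1 + e.2 = m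

theorem OG.mono {m n : ℕ} {f : ℂ[X][X]} (h : OG m f) (hn : n ≤ m) : OG n f :=
  fun e he => hn.trans (h e he)

theorem og_zero (f : ℂ[X][X]) : OG 0 f := fun _ _ => Nat.zero_le _

theorem og_zero_pol (m : ℕ) : OG m (0 : ℂ[X][X]) := by
  intro e he
  simp [cf] at he

theorem cf_add (f g : ℂ[X][X]) (e : ℕ × ℕ) : cf (f + g) e = cf f e + cf g e := by
  simp [cf]

theorem cf_sub (f g : ℂ[X][X]) (e : ℕ × ℕ) : cf (f - g) e = cf f e - cf g e := by
  simp [cf]

theorem cf_neg (f : ℂ[X][X]) (e : ℕ × ℕ) : cf (-f) e = - cf f e := by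
  simp [cf]

theorem cf_zero (e : ℕ × ℕ) : cf 0 e = 0 := by
  simp [cf]

theorem cf_CC_mul (c : ℂ) (f : ℂ[X][X]) (e : ℕ × ℕ) : cf (C (C c) * f) e = c * cf f e := by
  simp [cf]

theorem OG.add {m : ℕ} {f g : ℂ[X][X]} (hf : OG m f) (hg : OG m g) : OG m (f + g) := by
  intro e he
  by_cases h : cf f e = 0
  · refine hg e fun h' => he ?_
    rw [cf_add, h, h', add_zero]
  · exact hf e h

theorem OG.sub {m : ℕ} {f g : ℂ[X][X]} (hf : OG m f) (hg : OG m g) : OG m (f - g) := by
  intro e he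
  by_cases h : cf f e = 0
  · refine hg e fun h' => he ?_
    rw [cf_sub, h, h', sub_zero]
  · exact hf e h

theorem exists_OE {f : ℂ[X][X]} (hf : f ≠ 0) : ∃ m, OE m f := by
  classical
  have h : ∃ m, ∃ e, cf f e ≠ 0 ∧ e.1 + e.2 = m := by
    obtain ⟨e, he⟩ := exists_cf_ne hf
    exact ⟨_, e, he, rfl⟩
  refine ⟨Nat.find h, ?_, Nat.find_spec h⟩
  intro e he
  exact Nat.find_min' h ⟨e, he, rfl⟩

theorem OE.ne {m : ℕ} {f : ℂ[X][X]} (h : OE m f) : f ≠ 0 := by
  rintro rfl
  obtain ⟨-, e, he, -⟩ := h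
  exact he (cf_zero e)

theorem OE.le {m n : ℕ} {f : ℂ[X][X]} (h : OE m f) (h' : OG n f) : n ≤ m := by
  obtain ⟨-, e, he, rfl⟩ := h
  exact h' e he

theorem OE.unique {m n : ℕ} {f : ℂ[X][X]} (h : OE m f) (h' : OE n f) : m = n :=
  le_antisymm (h'.le h.1) (h.le h'.1)

theorem og_one {f : ℂ[X][X]} : OG 1 f ↔ cf f (0, 0) = 0 := by
  constructor
  · intro h
    by_contra h0
    have := h _ h0
    simp at this
  · intro h e he
    by_contra hlt
    have h1 : e.1 = 0 := by omega
    have h2 : e.2 = 0 := by omega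
    apply he
    have : e = (0, 0) := Prod.ext h1 h2
    rw [this, h]

/-- The substitution of a blow-up: `some c` is `(x, y) ↦ (x, x (y + c))` and `none` is
`(x, y) ↦ (x y, x)`. -/
def bl : Option ℂ → ℂ[X][X] →+* ℂ[X][X]
  | some c => eval₂RingHom (C : ℂ[X] →+* ℂ[X][X]) (C X * (X + C (C c)))
  | none => eval₂RingHom
      ((aeval (C X * X : ℂ[X][X]) : ℂ[X] →ₐ[ℂ] ℂ[X][X]) : ℂ[X] →+* ℂ[X][X]) (C X)

theorem C_monomial (i : ℕ) (a : ℂ) :
    (C (monomial i a) : ℂ[X][X]) = C (C a) * C X ^ i := by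
  rw [← C_mul_X_pow_eq_monomial, C_mul, C_pow]

theorem bl_some_eq (c : ℂ) (f : ℂ[X][X]) :
    bl (some c) f =
      ∑ e ∈ bs f, C (C (cf f e)) * (C X ^ (e.1 + e.2) * (X + C (C c)) ^ e.2) := by
  conv_lhs => rw [eq_sum_bs f]
  rw [map_sum]
  refine Finset.sum_congr rfl fun e _ => ?_
  change eval₂ _ _ _ = _
  rw [eval₂_monomial, C_monomial, mul_pow, pow_add]
  ring

theorem bl_none_eq (f : ℂ[X][X]) :
    bl none f = ∑ e ∈ bs f, C (C (cf f e)) * (C X ^ (e.1 + e.2) * X ^ e.1) := by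
  conv_lhs => rw [eq_sum_bs f]
  rw [map_sum]
  refine Finset.sum_congr rfl fun e _ => ?_
  change eval₂ _ _ _ = _
  rw [eval₂_monomial]
  change aeval _ _ * _ = _
  rw [aeval_monomial, mul_pow, pow_add]
  have : algebraMap ℂ ℂ[X][X] (cf f e) = C (C (cf f e)) := rfl
  rw [this]
  ring

/-- The quotient of the transform by the `m`-th power of the exceptional equation. -/
def bq : Option ℂ → ℕ → ℂ[X][X] → ℂ[X][X]
  | some c, m, f => ∑ e ∈ bs f, C (C (cf f e)) * (C X ^ (e.1 + e.2 - m) * (X + C (C c)) ^ e.2)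
  | none, m, f => ∑ e ∈ bs f, C (C (cf f e)) * (C X ^ (e.1 + e.2 - m) * X ^ e.1)

theorem bl_eq {m : ℕ} {f : ℂ[X][X]} (h : OG m f) (o : Option ℂ) :
    bl o f = C X ^ m * bq o m f := by
  cases o with
  | some c =>
    rw [bl_some_eq]
    unfold bq
    rw [Finset.mul_sum]
    refine Finset.sum_congr rfl fun e he => ?_
    have h1 := h e (mem_bs.1 he)
    have h2 : e.1 + e.2 = m + (e.1 + e.2 - m) := by omega
    conv_lhs => rw [h2, pow_add]
    ring
  | none =>
    rw [bl_none_eq]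
    unfold bq
    rw [Finset.mul_sum]
    refine Finset.sum_congr rfl fun e he => ?_
    have h1 := h e (mem_bs.1 he)
    have h2 : e.1 + e.2 = m + (e.1 + e.2 - m) := by omega
    conv_lhs => rw [h2, pow_add]
    ring

/-- The leading form of degree `m`, as a polynomial in `y / x`. -/
def lp (m : ℕ) (f : ℂ[X][X]) : ℂ[X] :=
  ∑ e ∈ (bs f).filter (fun e => e.1 + e.2 = m), C (cf f e) * X ^ e.2

/-- The leading form of degree `m`, as a polynomial in `x / y`. -/
def lq (m : ℕ) (f : ℂ[X][X]) : ℂ[X] :=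
  ∑ e ∈ (bs f).filter (fun e => e.1 + e.2 = m), C (cf f e) * X ^ e.1

theorem lp_coeff (m : ℕ) (f : ℂ[X][X]) (j : ℕ) :
    (lp m f).coeff j = if j ≤ m then cf f (m - j, j) else 0 := by
  unfold lp
  rw [finsetSum_coeff]
  simp only [coeff_C_mul_X_pow]
  split_ifs with h
  · by_cases h0 : cf f (m - j, j) = 0
    · rw [h0, Finset.sum_eq_zero]
      intro e he
      rw [Finset.mem_filter] at he
      split_ifs with h1
      · have : e = (m - j, j) := Prod.ext (by dsimp only; omega) h1.symm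
        rw [this, h0]
      · rfl
    · rw [Finset.sum_eq_single (m - j, j)]
      · rw [if_pos rfl]
      · intro e he hne
        rw [Finset.mem_filter] at he
        rw [if_neg]
        intro h1
        exact hne (Prod.ext (by dsimp only; omega) h1.symm)
      · intro h1
        exfalso
        apply h1
        rw [Finset.mem_filter]
        exact ⟨mem_bs.2 h0, by dsimp only; omega⟩
  · rw [Finset.sum_eq_zero]
    intro e he
    rw [Finset.mem_filter] at he
    rw [if_neg]
    omega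

theorem lq_coeff (m : ℕ) (f : ℂ[X][X]) (j : ℕ) :
    (lq m f).coeff j = if j ≤ m then cf f (j, m - j) else 0 := by
  unfold lq
  rw [finsetSum_coeff]
  simp only [coeff_C_mul_X_pow]
  split_ifs with h
  · by_cases h0 : cf f (j, m - j) = 0
    · rw [h0, Finset.sum_eq_zero]
      intro e he
      rw [Finset.mem_filter] at he
      split_ifs with h1
      · have : e = (j, m - j) := Prod.ext h1.symm (by dsimp only; omega)
        rw [this, h0]
      · rfl
    · rw [Finset.sum_eq_single (j, m - j)]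
      · rw [if_pos rfl]
      · intro e he hne
        rw [Finset.mem_filter] at he
        rw [if_neg]
        intro h1
        exact hne (Prod.ext h1.symm (by dsimp only; omega))
      · intro h1
        exfalso
        apply h1
        rw [Finset.mem_filter]
        exact ⟨mem_bs.2 h0, by dsimp only; omega⟩
  · rw [Finset.sum_eq_zero]
    intro e he
    rw [Finset.mem_filter] at he
    rw [if_neg]
    omega

/-- The restriction to the line `x = 0`. -/
def r0 (f : ℂ[X][X]) : ℂ[X] := f.map (evalRingHom 0)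

theorem r0_coeff (f : ℂ[X][X]) (j : ℕ) : (r0 f).coeff j = cf f (0, j) := coeff_map_ev0 f j

theorem r0_mul (f g : ℂ[X][X]) : r0 (f * g) = r0 f * r0 g := Polynomial.map_mul _

theorem r0_add (f g : ℂ[X][X]) : r0 (f + g) = r0 f + r0 g := Polynomial.map_add _

theorem r0_sub (f g : ℂ[X][X]) : r0 (f - g) = r0 f - r0 g := Polynomial.map_sub _

theorem r0_pow (f : ℂ[X][X]) (n : ℕ) : r0 (f ^ n) = r0 f ^ n := Polynomial.map_pow _ _

theorem r0_CX : r0 (C X) = 0 := by
  unfold r0
  rw [Polynomial.map_C]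
  simp

theorem r0_CC (c : ℂ) : r0 (C (C c)) = C c := by
  unfold r0
  rw [Polynomial.map_C]
  simp

theorem r0_X : r0 X = X := by
  unfold r0
  rw [Polynomial.map_X]

theorem r0_sum {ι : Type} (s : Finset ι) (f : ι → ℂ[X][X]) :
    r0 (∑ i ∈ s, f i) = ∑ i ∈ s, r0 (f i) := by
  unfold r0
  rw [Polynomial.map_sum]

theorem r0_bq_some {m : ℕ} {f : ℂ[X][X]} (h : OG m f) (c : ℂ) :
    r0 (bq (some c) m f) = (lp m f).comp (X + C c) := by
  unfold bq lp
  rw [r0_sum, Polynomial.sum_comp, Finset.sum_filter]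
  refine Finset.sum_congr rfl fun e he => ?_
  have h1 := h e (mem_bs.1 he)
  rw [r0_mul, r0_mul, r0_pow, r0_pow, r0_CC, r0_CX, r0_add, r0_X, r0_CC]
  split_ifs with h2
  · rw [show e.1 + e.2 - m = 0 by omega, pow_zero, one_mul, mul_comp, C_comp, X_pow_comp]
  · rw [zero_pow (by omega), zero_mul, mul_zero]

theorem r0_bq_none {m : ℕ} {f : ℂ[X][X]} (h : OG m f) :
    r0 (bq none m f) = lq m f := by
  unfold bq lq
  rw [r0_sum, Finset.sum_filter]
  refine Finset.sum_congr rfl fun e he => ?_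
  have h1 := h e (mem_bs.1 he)
  rw [r0_mul, r0_mul, r0_pow, r0_pow, r0_CC, r0_CX, r0_X]
  split_ifs with h2
  · rw [show e.1 + e.2 - m = 0 by omega, pow_zero, one_mul]
  · rw [zero_pow (by omega), zero_mul, mul_zero]

theorem lp_ne {m : ℕ} {f : ℂ[X][X]} (h : OE m f) : lp m f ≠ 0 := by
  obtain ⟨-, e, he, h2⟩ := h
  intro h0
  have h3 := lp_coeff m f e.2
  rw [h0, coeff_zero, if_pos (by omega)] at h3
  apply he
  rw [h3]
  congr 1
  exact Prod.ext (by dsimp only; omega) rfl

theorem lq_ne {m : ℕ} {f : ℂ[X][X]} (h : OE m f) : lq m f ≠ 0 := by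
  obtain ⟨-, e, he, h2⟩ := h
  intro h0
  have h3 := lq_coeff m f e.1
  rw [h0, coeff_zero, if_pos (by omega)] at h3
  apply he
  rw [h3]
  congr 1
  exact Prod.ext rfl (by dsimp only; omega)

theorem lp_natDegree_le (m : ℕ) (f : ℂ[X][X]) : (lp m f).natDegree ≤ m := by
  rw [natDegree_le_iff_coeff_eq_zero]
  intro j hj
  rw [lp_coeff, if_neg (by omega)]

theorem lq_natDegree_le (m : ℕ) (f : ℂ[X][X]) : (lq m f).natDegree ≤ m := by
  rw [natDegree_le_iff_coeff_eq_zero]
  intro j hj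
  rw [lq_coeff, if_neg (by omega)]

theorem comp_ne {p : ℂ[X]} (hp : p ≠ 0) (c : ℂ) : p.comp (X + C c) ≠ 0 := by
  intro h
  have h1 : (p.comp (X + C c)).comp (X - C c) = p := by
    rw [comp_assoc]
    simp
  rw [h, zero_comp] at h1
  exact hp h1.symm

theorem comp_natDegree (p : ℂ[X]) (c : ℂ) : (p.comp (X + C c)).natDegree = p.natDegree := by
  rw [natDegree_comp, natDegree_X_add_C, mul_one]

/-- The transform of a polynomial of order exactly `m` is not divisible by the exceptional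
equation; its restriction has degree at most `m`. -/
theorem r0_bq_ne {m : ℕ} {f : ℂ[X][X]} (h : OE m f) (o : Option ℂ) :
    r0 (bq o m f) ≠ 0 ∧ (r0 (bq o m f)).natDegree ≤ m := by
  cases o with
  | some c =>
    rw [r0_bq_some h.1]
    exact ⟨comp_ne (lp_ne h) c, by rw [comp_natDegree]; exact lp_natDegree_le m f⟩
  | none =>
    rw [r0_bq_none h.1]
    exact ⟨lq_ne h, lq_natDegree_le m f⟩

/-- The restriction of the transform of a polynomial of larger order vanishes. -/
theorem r0_bq_eq_zero {m : ℕ} {f : ℂ[X][X]} (h : OG (m + 1) f) (o : Option ℂ) :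
    r0 (bq o m f) = 0 := by
  have h1 : OG m f := h.mono (Nat.le_succ m)
  have h2 : (bs f).filter (fun e => e.1 + e.2 = m) = ∅ := by
    rw [Finset.filter_eq_empty_iff]
    intro e he
    have := h e (mem_bs.1 he)
    omega
  cases o with
  | some c =>
    rw [r0_bq_some h1]
    unfold lp
    rw [h2, Finset.sum_empty, zero_comp]
  | none =>
    rw [r0_bq_none h1]
    unfold lq
    rw [h2, Finset.sum_empty]

theorem CX_ne : (C X : ℂ[X][X]) ≠ 0 := by
  rw [Ne, C_eq_zero]
  exact X_ne_zero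

/-- Divisibility by the exceptional equation is detected by the restriction. -/
theorem dvd_of_r0 {f : ℂ[X][X]} (h : r0 f = 0) : C X ∣ f := by
  rw [C_dvd_iff_dvd_coeff]
  intro j
  rw [X_dvd_iff]
  have := r0_coeff f j
  rw [h, coeff_zero] at this
  exact this.symm

theorem r0_of_dvd {f : ℂ[X][X]} (h : C X ∣ f) : r0 f = 0 := by
  obtain ⟨g, rfl⟩ := h
  rw [r0_mul, r0_CX, zero_mul]

/-- The order is detected by divisibility of the transform. -/
theorem og_iff_dvd {m : ℕ} {f : ℂ[X][X]} (o : Option ℂ) : OG m f ↔ C X ^ m ∣ bl o f := by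
  constructor
  · intro h
    exact ⟨_, bl_eq h o⟩
  · intro h
    by_cases hf : f = 0
    · rw [hf]; exact og_zero_pol m
    obtain ⟨n, hn⟩ := exists_OE hf
    refine hn.1.mono ?_
    by_contra hlt
    push Not at hlt
    rw [bl_eq hn.1] at h
    have h1 : C X ^ (m - n) ∣ bq o n f := by
      rw [show m = n + (m - n) by omega, pow_add] at h
      exact (mul_dvd_mul_iff_left (pow_ne_zero _ CX_ne)).1 (by simpa using h)
    have h2 : C X ∣ bq o n f := (dvd_pow_self _ (by omega)).trans h1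
    exact (r0_bq_ne hn o).1 (r0_of_dvd h2)

theorem bq_eq_of {m : ℕ} {f f' : ℂ[X][X]} {o : Option ℂ} (h : bl o f = C X ^ m * f') :
    OG m f ∧ f' = bq o m f := by
  have h1 : OG m f := (og_iff_dvd o).2 ⟨_, h⟩
  refine ⟨h1, ?_⟩
  rw [bl_eq h1] at h
  exact (mul_left_cancel₀ (pow_ne_zero _ CX_ne) h).symm

theorem prime_CX : Prime (C X : ℂ[X][X]) := by
  rw [prime_C_iff]
  exact prime_X

theorem OG.mul {m n : ℕ} {f g : ℂ[X][X]} (hf : OG m f) (hg : OG n g) : OG (m + n) (f * g) := by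
  rw [og_iff_dvd none, map_mul, pow_add]
  exact mul_dvd_mul ((og_iff_dvd none).1 hf) ((og_iff_dvd none).1 hg)

theorem OG.mul_left {m : ℕ} {f : ℂ[X][X]} (hf : OG m f) (g : ℂ[X][X]) : OG m (g * f) := by
  have := (og_zero g).mul hf
  rwa [zero_add] at this

theorem OE.mul {m n : ℕ} {f g : ℂ[X][X]} (hf : OE m f) (hg : OE n g) : OE (m + n) (f * g) := by
  refine ⟨hf.1.mul hg.1, ?_⟩
  have hne : f * g ≠ 0 := mul_ne_zero hf.ne hg.ne
  obtain ⟨k, hk⟩ := exists_OE hne
  have h1 : m + n ≤ k := hk.le (hf.1.mul hg.1)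
  have h2 : k ≤ m + n := by
    by_contra hlt
    push Not at hlt
    have h3 : OG (m + n + 1) (f * g) := hk.1.mono hlt
    have h4 := (og_iff_dvd none).1 h3
    rw [map_mul, bl_eq hf.1, bl_eq hg.1,
      show C X ^ m * bq none m f * (C X ^ n * bq none n g) =
        C X ^ (m + n) * (bq none m f * bq none n g) by ring, pow_succ] at h4
    have h5 := (mul_dvd_mul_iff_left (pow_ne_zero _ CX_ne)).1 h4
    rcases prime_CX.dvd_or_dvd h5 with h6 | h6
    · exact (r0_bq_ne hf none).1 (r0_of_dvd h6)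
    · exact (r0_bq_ne hg none).1 (r0_of_dvd h6)
  rw [show m + n = k by omega]
  exact hk.2

theorem bq_mul {m n : ℕ} {f g : ℂ[X][X]} (hf : OG m f) (hg : OG n g) (o : Option ℂ) :
    bq o (m + n) (f * g) = bq o m f * bq o n g := by
  refine (bq_eq_of (?_ : bl o (f * g) = C X ^ (m + n) * _)).2.symm
  rw [map_mul, bl_eq hf, bl_eq hg]
  ring

theorem bq_add {m : ℕ} {f g : ℂ[X][X]} (hf : OG m f) (hg : OG m g) (o : Option ℂ) :
    bq o m (f + g) = bq o m f + bq o m g := by
  refine (bq_eq_of (?_ : bl o (f + g) = C X ^ m * _)).2.symm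
  rw [map_add, bl_eq hf, bl_eq hg]
  ring

/-- The value at the origin of a transform of order `0`. -/
theorem cf_bl_zero (o : Option ℂ) (f : ℂ[X][X]) : cf (bl o f) (0, 0) = cf f (0, 0) := by
  have h0 : OG 0 f := og_zero f
  have h1 : bl o f = bq o 0 f := by rw [bl_eq h0, pow_zero, one_mul]
  rw [h1, ← r0_coeff]
  cases o with
  | some c =>
    rw [r0_bq_some h0]
    have h2 : lp 0 f = C (cf f (0, 0)) := by
      ext j
      rw [lp_coeff, coeff_C]
      by_cases hj : j = 0
      · subst hj; simp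
      · rw [if_neg (by omega), if_neg hj]
    rw [h2, C_comp, coeff_C_zero]
  | none =>
    rw [r0_bq_none h0, lq_coeff]
    simp

end

end H62

end LCY
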