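import Pool.Agent.Helper62.LCY.N2
import Pool.Agent.Helper51.LCY.P4

/-!
MP_f7e214_ag, local layer, part 3: normalised presentations of a linear system at the origin of a
pair of coordinates, and the induction over base points.
-/

open Polynomial

namespace LCY

noncomputable section

variable {L : Type} [Field L] [Algebra ℂ L] {N : ℕ}

/-- The ideal generated by the polynomials `F i` is not contained in the ideal of a curve through
the origin (in the local ring of the origin it contains a power of the first coordinate and an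
element that does not vanish on `x = 0`). -/
def LNorm (F : Fin (N + 1) → ℂ[X][X]) : Prop :=
  (∃ (k : ℕ) (r : ℂ[X][X]), cf r (0, 0) ≠ 0 ∧ C X ^ k * r ∈ Ideal.span (Set.range F)) ∧
    ∃ i, H62.r0 (F i) ≠ 0

/-- The least order at the origin of the polynomials `F i` is `m`. -/
def MOrd (F : Fin (N + 1) → ℂ[X][X]) (m : ℕ) : Prop :=
  (∀ i, H62.OG m (F i)) ∧ ∃ i, H62.OE m (F i)

namespace H62

theorem exists_mord {F : Fin (N + 1) → ℂ[X][X]} (h : LNorm F) : ∃ m, MOrd F m := by
  classical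
  obtain ⟨-, i, hi⟩ := h
  have hne : F i ≠ 0 := by
    rintro h0
    rw [h0] at hi
    exact hi (r0_of_dvd (dvd_zero _))
  have h1 : ∃ m, ∃ i, OE m (F i) := by
    obtain ⟨m, hm⟩ := exists_OE hne
    exact ⟨m, i, hm⟩
  refine ⟨Nat.find h1, fun j => ?_, Nat.find_spec h1⟩
  by_cases h0 : F j = 0
  · rw [h0]; exact og_zero_pol _
  · obtain ⟨m, hm⟩ := exists_OE h0
    exact hm.1.mono (Nat.find_min' h1 ⟨j, hm⟩)

theorem mord_unique {F : Fin (N + 1) → ℂ[X][X]} {m n : ℕ} (h : MOrd F m) (h' : MOrd F n) :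
    m = n := by
  obtain ⟨i, hi⟩ := h.2
  obtain ⟨j, hj⟩ := h'.2
  exact le_antisymm (hj.le (h.1 j)) (hi.le (h'.1 i))

/-- The factor of `Y ^ e` in a nonzero polynomial. -/
theorem exists_factor {p : ℂ[X]} (hp : p ≠ 0) : ∃ (e : ℕ) (u : ℂ[X]), u.coeff 0 ≠ 0 ∧
    p = X ^ e * u := by
  obtain ⟨u, hu, h⟩ := exists_eq_pow_rootMultiplicity_mul_and_not_dvd p hp 0
  rw [C_0, sub_zero] at hu h
  refine ⟨_, u, ?_, hu⟩
  intro h0
  exact h (X_dvd_iff.2 h0)

theorem cf_mul_zero (f g : ℂ[X][X]) : cf (f * g) (0, 0) = cf f (0, 0) * cf g (0, 0) := by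
  simp [cf, mul_coeff_zero]

theorem cf_pow_zero (f : ℂ[X][X]) (n : ℕ) : cf (f ^ n) (0, 0) = cf f (0, 0) ^ n := by
  induction n with
  | zero => simp [cf]
  | succ n ih => rw [pow_succ, cf_mul_zero, ih, pow_succ]

theorem cf_mapC_zero (u : ℂ[X]) : cf (u.map C) (0, 0) = u.coeff 0 := by
  simp [cf, coeff_map]

/-- The ideal also contains a power of the second coordinate times a unit. -/
theorem ypart {F : Fin (N + 1) → ℂ[X][X]} (h : LNorm F) :
    ∃ (k : ℕ) (r : ℂ[X][X]), cf r (0, 0) ≠ 0 ∧ X ^ k * r ∈ Ideal.span (Set.range F) := by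
  obtain ⟨⟨k, r, hr, hk⟩, i, hi⟩ := h
  obtain ⟨e, u, hu, hp⟩ := exists_factor hi
  have h1 : C X ∣ (r0 (F i)).map C - F i := by
    apply dvd_of_r0
    rw [r0_sub]
    unfold r0
    rw [Polynomial.map_map]
    have : (evalRingHom (0 : ℂ)).comp (C : ℂ →+* ℂ[X]) = RingHom.id ℂ := by
      ext c; simp
    rw [this, Polynomial.map_id, sub_self]
  obtain ⟨h', hh⟩ := h1
  have h2 : (X ^ e * u.map C : ℂ[X][X]) = F i + C X * h' := by
    rw [← hh, hp, Polynomial.map_mul, Polynomial.map_pow, Polynomial.map_X]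
    ring
  refine ⟨e * k, (u.map C) ^ k * r, ?_, ?_⟩
  · rw [cf_mul_zero, cf_pow_zero, cf_mapC_zero]
    exact mul_ne_zero (pow_ne_zero _ hu) hr
  · have h3 : (X ^ (e * k) * ((u.map C) ^ k * r) : ℂ[X][X]) = (F i + C X * h') ^ k * r := by
      rw [← h2, mul_pow, ← pow_mul]
      ring
    rw [h3]
    have h4 : F i ∈ Ideal.span (Set.range F) := Ideal.subset_span ⟨i, rfl⟩
    have h5 : (F i + C X * h') ^ k * r - (C X * h') ^ k * r ∈ Ideal.span (Set.range F) := by
      have h6 : F i ∣ (F i + C X * h') ^ k - (C X * h') ^ k := by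
        have := sub_dvd_pow_sub_pow (F i + C X * h') (C X * h') k
        rwa [add_sub_cancel_right] at this
      rw [← sub_mul]
      obtain ⟨q, hq⟩ := h6
      rw [hq]
      exact Ideal.mul_mem_right _ _ (Ideal.mul_mem_right _ _ h4)
    have h7 : (C X * h') ^ k * r ∈ Ideal.span (Set.range F) := by
      rw [mul_pow, show C X ^ k * h' ^ k * r = h' ^ k * (C X ^ k * r) by ring]
      exact Ideal.mul_mem_left _ _ hk
    have h8 := Ideal.add_mem _ h5 h7
    rwa [sub_add_cancel] at h8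

/-- The transformed system. -/
def stF (o : Option ℂ) (m : ℕ) (F : Fin (N + 1) → ℂ[X][X]) : Fin (N + 1) → ℂ[X][X] :=
  fun i => bq o m (F i)

theorem span_bl {F : Fin (N + 1) → ℂ[X][X]} {m : ℕ} (hm : ∀ i, OG m (F i)) (o : Option ℂ)
    {a : ℂ[X][X]} (ha : a ∈ Ideal.span (Set.range F)) :
    ∃ b ∈ Ideal.span (Set.range (stF o m F)), bl o a = C X ^ m * b := by
  refine Submodule.span_induction (p := fun a _ => ∃ b ∈ Ideal.span (Set.range (stF o m F)),
    bl o a = C X ^ m * b) ?_ ?_ ?_ ?_ ha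
  · rintro _ ⟨i, rfl⟩
    exact ⟨_, Ideal.subset_span ⟨i, rfl⟩, bl_eq (hm i) o⟩
  · exact ⟨0, Ideal.zero_mem _, by rw [map_zero, mul_zero]⟩
  · rintro u w _ _ ⟨b, hb, h1⟩ ⟨c, hc, h2⟩
    exact ⟨b + c, Ideal.add_mem _ hb hc, by rw [map_add, h1, h2, mul_add]⟩
  · rintro u w _ ⟨b, hb, h1⟩
    refine ⟨bl o u * b, Ideal.mul_mem_left _ _ hb, ?_⟩
    rw [smul_eq_mul, map_mul, h1]
    ring

theorem bl_CX_some (c : ℂ) : bl (some c) (C X) = C X := by
  change eval₂ _ _ _ = _
  rw [eval₂_C]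

theorem bl_X_none : bl none (X : ℂ[X][X]) = C X := by
  change eval₂ _ _ _ = _
  rw [eval₂_X]

/-- One step: from `X ^ k * r` in the span to `X ^ (k - m) * r'` in the new span; `m ≤ k`. -/
theorem xpart_step {F : Fin (N + 1) → ℂ[X][X]} {m : ℕ} (hm : ∀ i, OG m (F i)) (o : Option ℂ)
    {a r : ℂ[X][X]} {k : ℕ} (hr : cf r (0, 0) ≠ 0) (ha : bl o a = C X ^ k * bl o r)
    (h : a ∈ Ideal.span (Set.range F)) :
    m ≤ k ∧ cf (bl o r) (0, 0) ≠ 0 ∧
      C X ^ (k - m) * bl o r ∈ Ideal.span (Set.range (stF o m F)) := by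
  obtain ⟨b, hb, h1⟩ := span_bl hm o h
  have h0 : cf (bl o r) (0, 0) ≠ 0 := by rw [cf_bl_zero]; exact hr
  rw [ha] at h1
  have hmk : m ≤ k := by
    by_contra hlt
    push Not at hlt
    rw [show m = k + (m - k) by omega, pow_add, mul_assoc] at h1
    have h2 := mul_left_cancel₀ (pow_ne_zero _ CX_ne) h1
    have h3 : C X ∣ bl o r := by
      rw [h2]
      exact (dvd_pow_self _ (by omega)).mul_right _
    have h4 := r0_of_dvd h3
    have h5 := r0_coeff (bl o r) 0
    rw [h4, coeff_zero] at h5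
    exact h0 h5.symm
  refine ⟨hmk, h0, ?_⟩
  have h2 : (C X ^ k : ℂ[X][X]) = C X ^ m * C X ^ (k - m) := by
    rw [← pow_add]
    congr 1
    omega
  rw [h2, mul_assoc] at h1
  rw [mul_left_cancel₀ (pow_ne_zero _ CX_ne) h1]
  exact hb

theorem lnorm_step {F : Fin (N + 1) → ℂ[X][X]} (h : LNorm F) {m : ℕ} (hm : MOrd F m)
    (o : Option ℂ) : LNorm (stF o m F) := by
  refine ⟨?_, ?_⟩
  · cases o with
    | some c =>
      obtain ⟨⟨k, r, hr, hk⟩, -⟩ := h
      obtain ⟨-, h1, h2⟩ := xpart_step hm.1 (some c) hr (k := k) (a := C X ^ k * r)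
        (by rw [map_mul, map_pow, bl_CX_some]) hk
      exact ⟨_, _, h1, h2⟩
    | none =>
      obtain ⟨k, r, hr, hk⟩ := ypart h
      obtain ⟨-, h1, h2⟩ := xpart_step hm.1 none hr (k := k) (a := X ^ k * r)
        (by rw [map_mul, map_pow, bl_X_none]) hk
      exact ⟨_, _, h1, h2⟩
  · obtain ⟨i, hi⟩ := hm.2
    exact ⟨i, (r0_bq_ne hi o).1⟩

/-- A nonzero polynomial of degree at most `m` whose coefficients below `m'` vanish. -/
theorem exists_coeff_ne {p : ℂ[X]} (hp : p ≠ 0) {m : ℕ} (hd : p.natDegree ≤ m) :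
    ∃ j ≤ m, p.coeff j ≠ 0 :=
  ⟨p.natDegree, hd, by rw [coeff_natDegree, Ne, leadingCoeff_eq_zero]; exact hp⟩

/-- The multiplicity does not increase. -/
theorem mord_le {F : Fin (N + 1) → ℂ[X][X]} {m m' : ℕ} (hm : MOrd F m) {o : Option ℂ}
    (hm' : MOrd (stF o m F) m') : m' ≤ m := by
  obtain ⟨i, hi⟩ := hm.2
  obtain ⟨j, hj, h1⟩ := exists_coeff_ne (r0_bq_ne hi o).1 (r0_bq_ne hi o).2
  rw [r0_coeff] at h1
  have h2 := hm'.1 i (0, j) h1
  simp only [zero_add] at h2
  omega

/-- Some member of minimal order contains the monomial `y ^ m`. -/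
def FreeX (F : Fin (N + 1) → ℂ[X][X]) (m : ℕ) : Prop := ∃ i, cf (F i) (0, m) ≠ 0

/-- If the multiplicity does not drop, the new point is free with respect to the exceptional
curve. -/
theorem free_of_eq {F : Fin (N + 1) → ℂ[X][X]} {m : ℕ} (hm : MOrd F m) {o : Option ℂ}
    (hm' : MOrd (stF o m F) m) : FreeX (stF o m F) m := by
  obtain ⟨i, hi⟩ := hm.2
  obtain ⟨j, hj, h1⟩ := exists_coeff_ne (r0_bq_ne hi o).1 (r0_bq_ne hi o).2
  rw [r0_coeff] at h1
  have h2 := hm'.1 i (0, j) h1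
  simp only [zero_add] at h2
  have : j = m := by omega
  subst this
  exact ⟨i, h1⟩

/-- All polynomials vanish at the origin. -/
def IsB (F : Fin (N + 1) → ℂ[X][X]) : Prop := ∀ i, cf (F i) (0, 0) = 0

theorem not_isB_none {F : Fin (N + 1) → ℂ[X][X]} {m : ℕ} (hm : MOrd F m) (h : FreeX F m) :
    ¬ IsB (stF none m F) := by
  intro hB
  obtain ⟨i, hi⟩ := h
  have h1 : cf (bq none m (F i)) (0, 0) = 0 := hB i
  rw [← r0_coeff, r0_bq_none (hm.1 i), lq_coeff, if_pos (Nat.zero_le _)] at h1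
  exact hi h1

theorem isB_iff {F : Fin (N + 1) → ℂ[X][X]} {m : ℕ} (hm : MOrd F m) : IsB F ↔ 1 ≤ m := by
  constructor
  · intro h
    obtain ⟨i, hi⟩ := hm.2
    exact hi.le (og_one.2 (h i))
  · intro h i
    exact og_one.1 ((hm.1 i).mono h)

/-- **Induction over base points.** A property of normalised systems at a point that holds at a
base point as soon as it holds at all the base points of the blow-up holds at all base points. -/
theorem base_induction (M : Coord L → (Fin (N + 1) → ℂ[X][X]) → Prop)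
    (step : ∀ (P : Coord L) (F : Fin (N + 1) → ℂ[X][X]) (m : ℕ), LNorm F → MOrd F m → 1 ≤ m →
      (∀ o, IsB (stF o m F) → M (P.st o) (stF o m F)) → M P F) :
    ∀ (P : Coord L) (F : Fin (N + 1) → ℂ[X][X]), LNorm F → IsB F → M P F := by
  -- innermost induction: free points of constant multiplicity
  have key : ∀ m : ℕ, (∀ (P : Coord L) (F : Fin (N + 1) → ℂ[X][X]) (m' : ℕ), m' < m → LNorm F →
      MOrd F m' → IsB F → M P F) → ∀ (k : ℕ) (P : Coord L) (F : Fin (N + 1) → ℂ[X][X]),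
      LNorm F → MOrd F m → IsB F → FreeX F m →
      (∃ r : ℂ[X][X], cf r (0, 0) ≠ 0 ∧ C X ^ k * r ∈ Ideal.span (Set.range F)) → M P F := by
    intro m ihm k
    induction k using Nat.strong_induction_on with
    | _ k ihk =>
      intro P F hF hm hB hfree hk
      have h1 : 1 ≤ m := (isB_iff hm).1 hB
      refine step P F m hF hm h1 fun o hBo => ?_
      have hF' := lnorm_step hF hm o
      obtain ⟨m', hm'⟩ := exists_mord hF'
      rcases Nat.lt_or_ge m' m with h2 | h2
      · exact ihm _ _ m' h2 hF' hm' hBo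
      · have h3 : m' = m := le_antisymm (mord_le hm hm') h2
        subst h3
        cases o with
        | none => exact absurd hBo (not_isB_none hm hfree)
        | some c =>
          obtain ⟨r, hr, hk⟩ := hk
          obtain ⟨h4, h5, h6⟩ := xpart_step hm.1 (some c) hr (k := k) (a := C X ^ k * r)
            (by rw [map_mul, map_pow, bl_CX_some]) hk
          exact ihk (k - m') (by omega) _ _ hF' hm' hBo (free_of_eq hm hm') ⟨_, h5, h6⟩
  have key2 : ∀ (m : ℕ) (P : Coord L) (F : Fin (N + 1) → ℂ[X][X]), LNorm F → MOrd F m →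
      IsB F → M P F := by
    intro m
    induction m using Nat.strong_induction_on with
    | _ m ihm =>
      intro P F hF hm hB
      have h1 : 1 ≤ m := (isB_iff hm).1 hB
      refine step P F m hF hm h1 fun o hBo => ?_
      have hF' := lnorm_step hF hm o
      obtain ⟨m', hm'⟩ := exists_mord hF'
      rcases Nat.lt_or_ge m' m with h2 | h2
      · exact ihm m' h2 _ _ hF' hm' hBo
      · have h3 : m' = m := le_antisymm (mord_le hm hm') h2
        subst h3
        obtain ⟨⟨k, r, hr, hk⟩, -⟩ := id hF'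
        exact key m' (fun P F m'' hlt hF hm hB => ihm m'' hlt P F hF hm hB) k _ _ hF' hm' hBo
          (free_of_eq hm hm') ⟨r, hr, hk⟩
  intro P F hF hB
  obtain ⟨m, hm⟩ := exists_mord hF
  exact key2 m P F hF hm hB

/-- The transformed system presents the same linear system. -/
theorem pol_st {x : Fin (N + 1) → L} {P : Coord L} {q : L} {F : Fin (N + 1) → ℂ[X][X]}
    (h : Pol x P q F) {m : ℕ} (hm : ∀ i, OG m (F i)) (o : Option ℂ) :
    Pol x (P.st o) (q * ((P.st o).x ^ m)⁻¹) (stF o m F) := by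
  have hx := (P.st o).x_ne
  refine ⟨mul_ne_zero h.1 (inv_ne_zero (pow_ne_zero _ hx)), fun i => ?_⟩
  have h1 := P.ev_st o (F i)
  rw [bl_eq (hm i), map_mul, map_pow, ev_CX, h.2 i] at h1
  have h2 : (P.st o).x ^ m ≠ 0 := pow_ne_zero _ hx
  unfold stF
  field_simp
  linear_combination h1

end H62

end

end LCY
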