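import Pool.Agent.Helper62.LCY.B2
import Pool.Agent.Helper51.LCY.P6

/-!
MP_f7e214_ag, local layer, part 5: systems without common factor are normalised at every point;
the multiplicity of a linear system at a point depends only on the local ring.
-/

open Polynomial

namespace LCY

noncomputable section

variable {L : Type} [Field L] [Algebra ℂ L] {N : ℕ}

namespace H62

theorem exists_C_aux {F : Fin (N + 1) → ℂ[X][X]} (h : ∀ p, Prime p → ∃ i, ¬ p ∣ F i)
    (f : ℂ[X][X]) (hf : f ≠ 0) : ∃ (r : ℂ[X]) (a : ℂ[X][X]), r ≠ 0 ∧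
      C r - a * f ∈ Ideal.span (Set.range F) := by
  induction f using UniqueFactorizationMonoid.induction_on_prime with
  | h₁ => exact absurd rfl hf
  | h₂ u hu =>
    obtain ⟨w, hw⟩ := hu.exists_left_inv
    exact ⟨1, w, one_ne_zero, by rw [hw, C_1, sub_self]; exact Ideal.zero_mem _⟩
  | h₃ f p hfn hp ih =>
    obtain ⟨r2, a, hr2, h2⟩ := ih hfn
    obtain ⟨i, hi⟩ := h p hp
    obtain ⟨r1, A, B, hr1, h1⟩ := elim_y hp hi
    refine ⟨r1 * r2, A * a, mul_ne_zero hr1 hr2, ?_⟩
    have h3 : C (r1 * r2) - A * a * (p * f) = A * p * (C r2 - a * f) + B * C r2 * F i := by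
      rw [C_mul, h1]; ring
    rw [h3]
    exact Ideal.add_mem _ (Ideal.mul_mem_left _ _ h2)
      (Ideal.mul_mem_left _ _ (Ideal.subset_span ⟨i, rfl⟩))

/-- A system without common factor is normalised at the origin. -/
theorem lnorm_of_gcd {F : Fin (N + 1) → ℂ[X][X]} (h : ∀ p, Prime p → ∃ i, ¬ p ∣ F i) :
    LNorm F := by
  obtain ⟨i, hi⟩ := h (C X) prime_CX
  have hi0 : F i ≠ 0 := by
    intro h0
    rw [h0] at hi
    exact hi (dvd_zero _)
  refine ⟨?_, i, fun h0 => hi (dvd_of_r0 h0)⟩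
  obtain ⟨r, a, hr, h1⟩ := exists_C_aux h (F i) hi0
  have h2 : C r ∈ Ideal.span (Set.range F) := by
    have h3 := Ideal.add_mem _ h1 (Ideal.mul_mem_left _ a (Ideal.subset_span ⟨i, rfl⟩))
    rwa [sub_add_cancel] at h3
  obtain ⟨k, u, hu, h4⟩ := exists_factor hr
  refine ⟨k, C u, ?_, ?_⟩
  · unfold cf
    simpa using hu
  · rw [← C_pow, ← C_mul, ← h4]
    exact h2

/-- Minimal plane structures are normalised at the origin. -/
theorem minP2_lnorm {ω : Bracket L} {x : Fin (N + 1) → L} (hx : Big ω x) {P : Coord L} {q : L}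
    {a : ℕ} (h : MinP2 x P q a) {F : Fin (N + 1) → ℂ[X][X]} (hF : Pol x P q F) : LNorm F := by
  refine lnorm_of_gcd fun p hp => ?_
  obtain ⟨Q, hQ, h1, h2, h3⟩ := curveP2_pval P hp
  have e1 : (P.pval p hp).Int P.x := by
    have := pval_int P hp (C X)
    rwa [ev_CX] at this
  have e2 : (P.pval p hp).Int P.y := by
    have := pval_int P hp X
    rwa [ev_X] at this
  obtain ⟨i, hi, h4⟩ := h.gcd hx (P.pval p hp) e1 e2 (not_both_const P hp)
  refine ⟨i, fun hd => ?_⟩
  rw [← hF.2 i] at h4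
  have h5 : F i ≠ 0 := by
    intro h0
    have := hF.2 i
    rw [h0, map_zero] at this
    exact mul_ne_zero hF.1 hi this.symm
  rw [P.pval_ev hp h5] at h4
  have h6 := (le_mult hp h5 (n := 1)).1 (by rwa [pow_one])
  omega

/-- An element that becomes regular after multiplication by a power of each coordinate is
regular. -/
theorem mem_of_two {P : Coord L} {z : L} {k l : ℕ} (h1 : z * P.x ^ k ∈ P.loc)
    (h2 : z * P.y ^ l ∈ P.loc) : z ∈ P.loc := by
  obtain ⟨f0, g0, hg0, hz⟩ := P.surj z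
  obtain ⟨f, g, c, hrel, hcf, hcg⟩ := UniqueFactorizationMonoid.exists_reduced_factors' f0 g0 hg0
  have hc : c ≠ 0 := by
    rintro rfl
    rw [zero_mul] at hcg
    exact hg0 hcg.symm
  have hg : g ≠ 0 := by
    rintro rfl
    rw [mul_zero] at hcg
    exact hg0 hcg.symm
  have hz' : z = ev P.x P.y f / ev P.x P.y g := by
    rw [hz, ← hcf, ← hcg, map_mul, map_mul, mul_div_mul_left _ _ (P.ne hc)]
  have key : ∀ t : ℂ[X][X], z * ev P.x P.y t ∈ P.loc →
      ∃ b : ℂ[X][X], cf b (0, 0) ≠ 0 ∧ g ∣ t * b := by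
    rintro t ⟨a, b, hb, h⟩
    refine ⟨b, hb, ?_⟩
    have hbn := P.ne (ne_of_cf hb)
    have hgn := P.ne hg
    have h3 : f * (t * b) = a * g := by
      rw [← sub_eq_zero]
      apply P.inj
      rw [hz'] at h
      simp only [map_sub, map_mul]
      field_simp at h
      linear_combination h
    exact hrel.symm.dvd_of_dvd_mul_left ⟨a, by rw [h3]; ring⟩
  refine ⟨f, g, ?_, hz'⟩
  intro h0
  obtain ⟨b1, hb1, d1⟩ := key (C X ^ k) (by rw [map_pow, ev_CX]; exact h1)
  obtain ⟨b2, hb2, d2⟩ := key (X ^ l) (by rw [map_pow, ev_X]; exact h2)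
  -- a prime factor of `g` through the origin
  have hex : ∀ g : ℂ[X][X], g ≠ 0 → cf g (0, 0) = 0 →
      ∃ p, Prime p ∧ p ∣ g ∧ cf p (0, 0) = 0 := by
    intro g
    induction g using UniqueFactorizationMonoid.induction_on_prime with
    | h₁ => intro h; exact absurd rfl h
    | h₂ u hu =>
      intro _ h
      exfalso
      obtain ⟨w, hw⟩ := hu.exists_left_inv
      have := congrArg (fun q => cf q (0, 0)) hw
      simp only [cf_mul_zero, h, mul_zero] at this
      simp [cf] at this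
    | h₃ f p hfn hp ih =>
      intro _ h
      rw [cf_mul_zero] at h
      rcases mul_eq_zero.1 h with h | h
      · exact ⟨p, hp, dvd_mul_right _ _, h⟩
      · obtain ⟨p', h3, h4, h5⟩ := ih hfn h
        exact ⟨p', h3, h4.mul_left _, h5⟩
  obtain ⟨p, hp, hpg, hp0⟩ := hex g hg h0
  have hnd : ∀ b : ℂ[X][X], cf b (0, 0) ≠ 0 → ¬ p ∣ b := by
    rintro b hb ⟨w, rfl⟩
    rw [cf_mul_zero, hp0, zero_mul] at hb
    exact hb rfl
  have e1 : p ∣ C X := by
    rcases hp.dvd_or_dvd (hpg.trans d1) with h | h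
    · exact hp.dvd_of_dvd_pow h
    · exact absurd h (hnd _ hb1)
  have e2 : p ∣ X := by
    rcases hp.dvd_or_dvd (hpg.trans d2) with h | h
    · exact hp.dvd_of_dvd_pow h
    · exact absurd h (hnd _ hb2)
  have e3 : Associated p (C X) := hp.associated_of_dvd prime_CX e1
  have e4 : (C X : ℂ[X][X]) ∣ X := e3.symm.dvd.trans e2
  have e5 := r0_of_dvd e4
  rw [r0_X] at e5
  exact X_ne_zero e5

theorem span_mem_loc {P : Coord L} {z : L} {F : Fin (N + 1) → ℂ[X][X]}
    (h : ∀ i, z * ev P.x P.y (F i) ∈ P.loc) {a : ℂ[X][X]}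
    (ha : a ∈ Ideal.span (Set.range F)) : z * ev P.x P.y a ∈ P.loc := by
  refine Submodule.span_induction (p := fun a _ => z * ev P.x P.y a ∈ P.loc) ?_ ?_ ?_ ?_ ha
  · rintro _ ⟨i, rfl⟩
    exact h i
  · rw [map_zero, mul_zero]; exact Subalgebra.zero_mem _
  · intro u w _ _ hu hw
    rw [map_add, mul_add]
    exact Subalgebra.add_mem _ hu hw
  · intro u w _ hw
    rw [smul_eq_mul, map_mul, show z * (ev P.x P.y u * ev P.x P.y w) =
      ev P.x P.y u * (z * ev P.x P.y w) by ring]
    exact Subalgebra.mul_mem _ (P.ev_mem_loc u) hw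

/-- If `z` times a normalised system is regular then `z` is regular. -/
theorem mem_of_lnorm {P : Coord L} {z : L} {F : Fin (N + 1) → ℂ[X][X]} (hF : LNorm F)
    (h : ∀ i, z * ev P.x P.y (F i) ∈ P.loc) : z ∈ P.loc := by
  have key : ∀ (t r : ℂ[X][X]), cf r (0, 0) ≠ 0 → t * r ∈ Ideal.span (Set.range F) →
      z * ev P.x P.y t ∈ P.loc := by
    intro t r hr ht
    have h1 := span_mem_loc h ht
    have h2 : z * ev P.x P.y t = z * ev P.x P.y (t * r) * (ev P.x P.y r)⁻¹ := by
      rw [map_mul]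
      have := P.ne (ne_of_cf hr)
      field_simp
    rw [h2]
    refine Subalgebra.mul_mem _ h1 ?_
    exact ⟨1, r, hr, by rw [map_one, one_div]⟩
  obtain ⟨⟨k, r, hr, hk⟩, -⟩ := id hF
  obtain ⟨l, s, hs, hl⟩ := ypart hF
  have h1 := key _ _ hr hk
  have h2 := key _ _ hs hl
  rw [map_pow, ev_CX] at h1
  rw [map_pow, ev_X] at h2
  exact mem_of_two h1 h2

end H62

open H62

/-- The multiplicity of the linear system `x` at the point `R` is `m`. -/
def IsMult (x : Fin (N + 1) → L) (R : Subalgebra ℂ L) (m : ℕ) : Prop :=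
  ∃ (P : Coord L) (q : L) (F : Fin (N + 1) → ℂ[X][X]), P.loc = R ∧ Pol x P q F ∧ LNorm F ∧
    MOrd F m

namespace H62

theorem quot_mem {x : Fin (N + 1) → L} {P P' : Coord L} (hl : P.loc = P'.loc) {q q' : L}
    {F F' : Fin (N + 1) → ℂ[X][X]} (h : Pol x P q F) (h' : Pol x P' q' F') (hF' : LNorm F') :
    q / q' ∈ P.loc := by
  rw [hl]
  refine mem_of_lnorm hF' fun i => ?_
  have h1 : q / q' * ev P'.x P'.y (F' i) = ev P.x P.y (F i) := by
    rw [h'.2 i, h.2 i]
    have := h'.1
    field_simp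
  rw [h1, ← hl]
  exact P.ev_mem_loc _

theorem mord_val {x : Fin (N + 1) → L} {P : Coord L} {q : L} {F : Fin (N + 1) → ℂ[X][X]}
    (h : Pol x P q F) {m : ℕ} (hm : MOrd F m) :
    (∀ i, x i ≠ 0 → (m : ℤ) ≤ P.ord.v (q * x i)) ∧ ∃ i, x i ≠ 0 ∧ P.ord.v (q * x i) = m := by
  have hne : ∀ i, x i ≠ 0 → F i ≠ 0 := by
    intro i hi h0
    have := h.2 i
    rw [h0, map_zero] at this
    exact mul_ne_zero h.1 hi this.symm
  constructor
  · intro i hi
    obtain ⟨n, hn⟩ := exists_OE (hne i hi)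
    rw [← h.2 i, P.ord_ev hn]
    exact_mod_cast hn.le (hm.1 i)
  · obtain ⟨i, hi⟩ := hm.2
    refine ⟨i, ?_, ?_⟩
    · intro h0
      have := h.2 i
      rw [h0, mul_zero] at this
      exact P.ne hi.ne this
    · rw [← h.2 i, P.ord_ev hi]

end H62

/-- The multiplicity at a point is unique. -/
theorem IsMult.unique {x : Fin (N + 1) → L} {R : Subalgebra ℂ L} {m m' : ℕ}
    (h : IsMult x R m) (h' : IsMult x R m') : m = m' := by
  have key : ∀ {m m' : ℕ}, IsMult x R m → IsMult x R m' → m ≤ m' := by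
    rintro m m' ⟨P, q, F, hP, hF, hL, hm⟩ ⟨P', q', F', hP', hF', hL', hm'⟩
    have hl : P.loc = P'.loc := hP.trans hP'.symm
    have h1 := quot_mem hl.symm hF' hF hL
    rw [← hl] at h1
    have h2 := loc_int h1
    have hq := hF.1
    have hq' := hF'.1
    obtain ⟨i, hi, h3⟩ := (mord_val hF' hm').2
    have h4 := (mord_val hF hm).1 i hi
    have hne : q' * x i ≠ 0 := mul_ne_zero hq' hi
    have h5 := ord_same_of_loc hl (q' * x i) hne
    have h6 : q' * x i = (q' / q) * (q * x i) := by field_simp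
    have h7 : P.ord.v (q' * x i) = P.ord.v (q' / q) + P.ord.v (q * x i) := by
      rw [h6]
      exact P.ord.map_mul _ _ (div_ne_zero hq' hq) (mul_ne_zero hq hi)
    have h8 := h2.resolve_left (div_ne_zero hq' hq)
    omega
  exact le_antisymm (key h h') (key h' h)

theorem IsMult.of_pol {x : Fin (N + 1) → L} {P : Coord L} {q : L} {F : Fin (N + 1) → ℂ[X][X]}
    (hF : Pol x P q F) (hL : LNorm F) {m : ℕ} (hm : MOrd F m) : IsMult x P.loc m :=
  ⟨P, q, F, rfl, hF, hL, hm⟩

namespace H62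

/-- Change of the presentation: a normalised presentation exists in every pair of coordinates of
the same point. -/
theorem pol_change {x : Fin (N + 1) → L} {P P' : Coord L} (hl : P.loc = P'.loc) {q : L}
    {F : Fin (N + 1) → ℂ[X][X]} (h : Pol x P q F) (hF : LNorm F) :
    ∃ (q' : L) (F' : Fin (N + 1) → ℂ[X][X]), Pol x P' q' F' ∧ LNorm F' := by
  -- common denominators of the `q * x i` in the new coordinates
  have h1 : ∀ i, ∃ f g : ℂ[X][X], cf g (0, 0) ≠ 0 ∧ q * x i = ev P'.x P'.y f / ev P'.x P'.y g := by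
    intro i
    have : q * x i ∈ P'.loc := by
      rw [← hl, ← h.2 i]
      exact P.ev_mem_loc _
    exact this
  choose f g hg hfg using h1
  set G : ℂ[X][X] := ∏ i, g i with hG
  have hG0 : cf G (0, 0) ≠ 0 := by
    have : ∀ s : Finset (Fin (N + 1)), cf (∏ i ∈ s, g i) (0, 0) ≠ 0 := by
      intro s
      classical
      induction s using Finset.induction_on with
      | empty => simp [cf]
      | insert a s ha ih =>
        rw [Finset.prod_insert ha, cf_mul_zero]
        exact mul_ne_zero (hg a) ih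
    exact this _
  have hGn := P'.ne (ne_of_cf hG0)
  set F' : Fin (N + 1) → ℂ[X][X] := fun i => f i * ∏ j ∈ Finset.univ.erase i, g j with hF'
  have hev : ∀ i, ev P'.x P'.y (F' i) = ev P'.x P'.y G * (q * x i) := by
    intro i
    have h2 : G = g i * ∏ j ∈ Finset.univ.erase i, g j :=
      (Finset.mul_prod_erase Finset.univ g (Finset.mem_univ i)).symm
    rw [hfg i, hF', h2]
    simp only [map_mul]
    have := P'.ne (ne_of_cf (hg i))
    field_simp
  have hpol : Pol x P' (ev P'.x P'.y G * q) F' :=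
    ⟨mul_ne_zero hGn h.1, fun i => by rw [hev i, mul_assoc]⟩
  -- a unit multiple of the old system: transport of the two conditions
  have htr : ∀ (t r : ℂ[X][X]), cf r (0, 0) ≠ 0 → t * r ∈ Ideal.span (Set.range F) →
      ∀ z : L, z ∈ P'.loc → ∃ (s u : ℂ[X][X]), cf u (0, 0) ≠ 0 ∧
        ev P'.x P'.y s / ev P'.x P'.y u = z * ev P.x P.y t ∧
        s ∈ Ideal.span (Set.range F') := by
    intro t r hr ht z hz
    -- elements of the local ring times the span are in the span up to units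
    have hcl : ∀ a ∈ Ideal.span (Set.range F), ∀ z ∈ P'.loc, ∃ (s u : ℂ[X][X]),
        cf u (0, 0) ≠ 0 ∧ ev P'.x P'.y s / ev P'.x P'.y u = z * ev P.x P.y a ∧
        s ∈ Ideal.span (Set.range F') := by
      intro a ha
      refine Submodule.span_induction (p := fun a _ => ∀ z ∈ P'.loc, ∃ (s u : ℂ[X][X]),
        cf u (0, 0) ≠ 0 ∧ ev P'.x P'.y s / ev P'.x P'.y u = z * ev P.x P.y a ∧
        s ∈ Ideal.span (Set.range F')) ?_ ?_ ?_ ?_ ha
      · rintro _ ⟨i, rfl⟩ z ⟨a, b, hb, rfl⟩
        refine ⟨a * F' i, b * G, by rw [cf_mul_zero]; exact mul_ne_zero hb hG0, ?_,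
          Ideal.mul_mem_left _ _ (Ideal.subset_span ⟨i, rfl⟩)⟩
        have e1 := P'.ne (ne_of_cf hb)
        have e2 : ev P'.x P'.y (a * F' i) = ev P'.x P'.y a * ev P'.x P'.y (F' i) :=
          _root_.map_mul _ _ _
        have e3 : ev P'.x P'.y (b * G) = ev P'.x P'.y b * ev P'.x P'.y G :=
          _root_.map_mul _ _ _
        rw [e2, e3, hev i, h.2 i]
        field_simp
      · intro z _
        exact ⟨0, 1, by simp [cf], by simp, Ideal.zero_mem _⟩
      · intro a b _ _ iha ihb z hz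
        obtain ⟨s1, u1, hu1, e1, m1⟩ := iha z hz
        obtain ⟨s2, u2, hu2, e2, m2⟩ := ihb z hz
        refine ⟨s1 * u2 + s2 * u1, u1 * u2, by rw [cf_mul_zero]; exact mul_ne_zero hu1 hu2, ?_,
          Ideal.add_mem _ (Ideal.mul_mem_right _ _ m1) (Ideal.mul_mem_right _ _ m2)⟩
        have n1 := P'.ne (ne_of_cf hu1)
        have n2 := P'.ne (ne_of_cf hu2)
        rw [map_add, map_mul, map_mul, map_mul, map_add, mul_add, ← e1, ← e2]
        field_simp
      · intro c a _ iha z hz
        obtain ⟨s, u, hu, e1, m1⟩ := iha (z * ev P.x P.y c)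
          (Subalgebra.mul_mem _ hz (by rw [← hl]; exact P.ev_mem_loc c))
        refine ⟨s, u, hu, ?_, m1⟩
        rw [e1, smul_eq_mul, map_mul]
        ring
    have hrm : (ev P.x P.y r)⁻¹ ∈ P'.loc := by
      rw [← hl]
      exact ⟨1, r, hr, by rw [map_one, one_div]⟩
    obtain ⟨s, u, hu, e1, m1⟩ := hcl _ ht (z * (ev P.x P.y r)⁻¹) (Subalgebra.mul_mem _ hz hrm)
    refine ⟨s, u, hu, ?_, m1⟩
    rw [e1, map_mul]
    have := P.ne (ne_of_cf hr)
    field_simp
  refine ⟨_, F', hpol, ?_⟩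
  -- powers of the maximal ideal are contained in the old ideal
  obtain ⟨⟨k, r, hr, hk⟩, -⟩ := id hF
  obtain ⟨l, s, hs, hl'⟩ := ypart hF
  have hx' : P'.x ∈ P.loc := by rw [hl]; exact x_mem P'
  have hy' : P'.y ∈ P.loc := by rw [hl]; exact y_mem P'
  -- `w ^ (k + l)` is in the ideal for `w` in the maximal ideal of the local ring
  have hpow : ∀ w ∈ P'.loc, P'.ord.Pos w → ∃ (s u : ℂ[X][X]), cf u (0, 0) ≠ 0 ∧
      ev P'.x P'.y s / ev P'.x P'.y u = w ^ (k + l) ∧ s ∈ Ideal.span (Set.range F') := by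
    intro w hw hwp
    -- `w = a x + b y`
    obtain ⟨a, b, ha, hb, hab⟩ : ∃ a b : L, a ∈ P.loc ∧ b ∈ P.loc ∧ w = a * P.x + b * P.y := by
      have hw' : w ∈ P.loc := hl ▸ hw
      rcases loc_cases hw' with ⟨-, f, g, hf, hg, rfl⟩ | h1
      · obtain ⟨g1, hg1⟩ : X ∣ f.coeff 0 := by
          rw [X_dvd_iff]; exact hf
        have e1 : f = C X * C g1 + X * f.divX := by
          conv_lhs => rw [← divX_mul_X_add f, hg1]
          rw [C_mul]
          ring
        refine ⟨ev P.x P.y (C g1) / ev P.x P.y g, ev P.x P.y f.divX / ev P.x P.y g,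
          ⟨_, _, hg, rfl⟩, ⟨_, _, hg, rfl⟩, ?_⟩
        conv_lhs => rw [e1]
        rw [map_add, map_mul, map_mul, ev_CX, ev_X]
        have := P.ne (ne_of_cf hg)
        field_simp
      · exfalso
        by_cases hw0 : w = 0
        · exact h1.1 hw0
        have h2 := hwp.resolve_left hw0
        rw [← ord_same_of_loc hl w hw0] at h2
        omega
    have hexp : ∃ A B : L, A ∈ P.loc ∧ B ∈ P.loc ∧
        w ^ (k + l) = A * P.x ^ k + B * P.y ^ l := by
      rw [hab]
      have key : ∀ n m : ℕ, ∃ A B : L, A ∈ P.loc ∧ B ∈ P.loc ∧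
          (a * P.x + b * P.y) ^ (n + m) = A * P.x ^ n + B * P.y ^ m := by
        intro n
        induction n with
        | zero =>
          intro m
          exact ⟨(a * P.x + b * P.y) ^ (0 + m), 0, Subalgebra.pow_mem _ (Subalgebra.add_mem _
            (Subalgebra.mul_mem _ ha (x_mem P)) (Subalgebra.mul_mem _ hb (y_mem P))) _,
            Subalgebra.zero_mem _, by ring⟩
        | succ n ihn =>
          intro m
          induction m with
          | zero =>
            exact ⟨0, (a * P.x + b * P.y) ^ (n + 1 + 0), Subalgebra.zero_mem _,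
              Subalgebra.pow_mem _ (Subalgebra.add_mem _
              (Subalgebra.mul_mem _ ha (x_mem P)) (Subalgebra.mul_mem _ hb (y_mem P))) _,
              by ring⟩
          | succ m ihm =>
            obtain ⟨A1, B1, hA1, hB1, e1⟩ := ihn (m + 1)
            obtain ⟨A2, B2, hA2, hB2, e2⟩ := ihm
            refine ⟨a * A1 + b * P.y * A2, a * P.x * B1 + b * B2, ?_, ?_, ?_⟩
            · exact Subalgebra.add_mem _ (Subalgebra.mul_mem _ ha hA1) (Subalgebra.mul_mem _
                (Subalgebra.mul_mem _ hb (y_mem P)) hA2)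
            · exact Subalgebra.add_mem _ (Subalgebra.mul_mem _ (Subalgebra.mul_mem _ ha
                (x_mem P)) hB1) (Subalgebra.mul_mem _ hb hB2)
            · have e3 : (a * P.x + b * P.y) ^ (n + 1 + (m + 1)) =
                  a * P.x * (a * P.x + b * P.y) ^ (n + (m + 1)) +
                  b * P.y * (a * P.x + b * P.y) ^ (n + 1 + m) := by
                have e4 : n + (m + 1) = n + 1 + m := by omega
                rw [e4, ← add_mul, show n + 1 + (m + 1) = (n + 1 + m) + 1 by omega, pow_succ]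
                ring
              rw [e3, e1, e2]
              ring
      exact key k l
    obtain ⟨A, B, hA, hB, e⟩ := hexp
    obtain ⟨s1, u1, hu1, e1, m1⟩ := htr _ _ hr hk A (hl ▸ hA)
    obtain ⟨s2, u2, hu2, e2, m2⟩ := htr _ _ hs hl' B (hl ▸ hB)
    rw [map_pow, ev_CX] at e1
    rw [map_pow, ev_X] at e2
    refine ⟨s1 * u2 + s2 * u1, u1 * u2, by rw [cf_mul_zero]; exact mul_ne_zero hu1 hu2, ?_,
      Ideal.add_mem _ (Ideal.mul_mem_right _ _ m1) (Ideal.mul_mem_right _ _ m2)⟩
    have n1 := P'.ne (ne_of_cf hu1)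
    have n2 := P'.ne (ne_of_cf hu2)
    rw [e, ← e1, ← e2, map_add, map_mul, map_mul, map_mul]
    field_simp
  constructor
  · obtain ⟨s, u, hu, e1, m1⟩ := hpow P'.x (x_mem P') (Or.inr (by rw [ord_x]; norm_num))
    refine ⟨k + l, u, hu, ?_⟩
    have e2 : s = C X ^ (k + l) * u := by
      rw [← sub_eq_zero]
      apply P'.inj
      have n1 := P'.ne (ne_of_cf hu)
      rw [map_sub, map_mul, map_pow, ev_CX, ← e1]
      field_simp
      ring
    rw [← e2]
    exact m1
  · by_contra hcon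
    push Not at hcon
    obtain ⟨s, u, hu, e1, m1⟩ := hpow P'.y (y_mem P') (Or.inr (by rw [ord_y]; norm_num))
    have e2 : s = X ^ (k + l) * u := by
      rw [← sub_eq_zero]
      apply P'.inj
      have n1 := P'.ne (ne_of_cf hu)
      rw [map_sub, map_mul, map_pow, ev_X, ← e1]
      field_simp
      ring
    have h3 : ∀ a ∈ Ideal.span (Set.range F'), r0 a = 0 := by
      intro a ha
      refine Submodule.span_induction (p := fun a _ => r0 a = 0) ?_ ?_ ?_ ?_ ha
      · rintro _ ⟨i, rfl⟩; exact hcon i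
      · exact r0_of_dvd (dvd_zero _)
      · intro a b _ _ h1 h2; rw [r0_add, h1, h2, add_zero]
      · intro a b _ h1; rw [smul_eq_mul, r0_mul, h1, mul_zero]
    have h4 := h3 _ m1
    rw [e2, r0_mul, r0_pow, r0_X] at h4
    rcases mul_eq_zero.1 h4 with h5 | h5
    · exact pow_ne_zero _ X_ne_zero h5
    · have h6 := r0_coeff u 0
      rw [h5, coeff_zero] at h6
      exact hu h6.symm

end H62

/-- The multiplicity can be computed in every pair of coordinates of the point. -/
theorem IsMult.pol {x : Fin (N + 1) → L} {P : Coord L} {m : ℕ} (h : IsMult x P.loc m) :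
    ∃ (q : L) (F : Fin (N + 1) → ℂ[X][X]), Pol x P q F ∧ LNorm F ∧ MOrd F m := by
  obtain ⟨P', q', F', hP, hF, hL, hm⟩ := id h
  obtain ⟨q, F, h1, h2⟩ := pol_change hP hF hL
  obtain ⟨m', hm'⟩ := exists_mord h2
  have h3 := IsMult.of_pol h1 h2 hm'
  rw [h.unique h3]
  exact ⟨q, F, h1, h2, hm'⟩

end

end LCY
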